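import Pool.Agent.H.h20D.Basic

/-!
Cuts of words where the letter which continues the words on both sides has length `L`.
-/

set_option autoImplicit false

namespace Pool.H20E

open Pool.H20D (im lt im1 Same Per lt_neg lt_ge lt_mid lt_none_iff)

variable {Γ A : Type}

/-- the position at which the image of the `l`-th letter starts -/
def cut (L : ℕ) (f : Γ → List A) (x : List Γ) (l : ℤ) : ℤ :=
  (((x.take l.toNat).flatMap f).length : ℤ) + L * min l 0 + L * max (l - x.length) 0

def len1 (L : ℕ) (f : Γ → List A) (o : Option Γ) : ℤ := o.elim (L : ℤ) (fun a => ((f a).length : ℤ))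

theorem len1_nonneg (L : ℕ) (f : Γ → List A) (o : Option Γ) : 0 ≤ len1 L f o := by
  cases o <;> simp [len1]

variable {L : ℕ}

theorem cut_neg (f : Γ → List A) (x : List Γ) {l : ℤ} (h : l ≤ 0) : cut L f x l = L * l := by
  have h1 : l.toNat = 0 := by omega
  have h2 : min l 0 = l := by omega
  have h3 : max (l - (x.length : ℤ)) 0 = 0 := by omega
  simp only [cut, h1, h2, h3, List.take_zero, List.flatMap_nil, List.length_nil]
  simp

theorem cut_zero (f : Γ → List A) (x : List Γ) : cut L f x 0 = 0 := by
  rw [cut_neg f x le_rfl]; simp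

theorem cut_ge (f : Γ → List A) (x : List Γ) {l : ℤ} (h : (x.length : ℤ) ≤ l) :
    cut L f x l = (x.flatMap f).length + L * (l - x.length) := by
  have h1 : x.take l.toNat = x := List.take_of_length_le (by omega)
  have h2 : min l 0 = 0 := by omega
  have h3 : max (l - (x.length : ℤ)) 0 = l - x.length := by omega
  simp only [cut, h1, h2, h3]
  simp

theorem cut_mid (f : Γ → List A) (x : List Γ) (n : ℕ) (h : n ≤ x.length) :
    cut L f x n = ((x.take n).flatMap f).length := by
  have h2 : min (n : ℤ) 0 = 0 := by omega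
  have h3 : max ((n : ℤ) - (x.length : ℤ)) 0 = 0 := by omega
  simp only [cut, Int.toNat_natCast, h2, h3]
  simp

theorem cut_succ (f : Γ → List A) (x : List Γ) (l : ℤ) :
    cut L f x (l + 1) = cut L f x l + len1 L f (lt x l) := by
  rcases lt_or_ge l 0 with h | h
  · rw [cut_neg f x (by omega), cut_neg f x (by omega), lt_neg x h]
    simp only [len1, Option.elim]
    ring
  · rcases lt_or_ge l (x.length : ℤ) with h2 | h2
    · obtain ⟨n, rfl⟩ := Int.eq_ofNat_of_zero_le h
      have hn : n < x.length := by omega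
      have h3 : ((n : ℤ) + 1) = ((n + 1 : ℕ) : ℤ) := by push_cast; ring
      rw [h3, cut_mid f x (n + 1) (by omega), cut_mid f x n (by omega), lt_mid x n hn,
        List.take_succ_eq_append_getElem hn, List.flatMap_append]
      simp [len1]
    · rw [cut_ge f x (by omega), cut_ge f x h2, lt_ge x h2]
      simp only [len1, Option.elim]
      ring

theorem cut_le_succ (f : Γ → List A) (x : List Γ) (l : ℤ) : cut L f x l ≤ cut L f x (l + 1) := by
  rw [cut_succ]
  have := len1_nonneg L f (lt x l)
  omega

theorem cut_mono (f : Γ → List A) (x : List Γ) {a b : ℤ} (h : a ≤ b) : cut L f x a ≤ cut L f x b := by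
  obtain ⟨n, hn⟩ := Int.eq_ofNat_of_zero_le (show 0 ≤ b - a by omega)
  obtain rfl : b = a + n := by omega
  clear h hn
  induction n with
  | zero => simp
  | succ n ih =>
    refine ih.trans ?_
    have := cut_le_succ (L := L) f x (a + n)
    push_cast
    rwa [← add_assoc]

theorem im_cut (f : Γ → List A) (x : List Γ) (l k : ℤ) (hk : 0 ≤ k) (hk2 : k < len1 L f (lt x l)) :
    im f x (cut L f x l + k) = im1 f (lt x l) k := by
  rcases lt_or_ge l 0 with h | h
  · rw [cut_neg f x (by omega), lt_neg x h]
    rw [lt_neg x h] at hk2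
    simp only [len1, Option.elim] at hk2
    have : (L : ℤ) * l + k < 0 := by nlinarith
    simp [im, this, im1]
  · rcases lt_or_ge l (x.length : ℤ) with h2 | h2
    · obtain ⟨n, rfl⟩ := Int.eq_ofNat_of_zero_le h
      have hn : n < x.length := by omega
      have h3 := Pool.H20D.im_cut f x n k hk (by
        rw [lt_mid x n hn] at hk2 ⊢
        exact hk2)
      rw [Pool.H20D.cut_mid f x n hn.le] at h3
      rw [cut_mid f x n hn.le]
      exact h3
    · rw [cut_ge f x h2, lt_ge x h2]
      have h4 : 0 ≤ (L : ℤ) * (l - x.length) := mul_nonneg (by omega) (by omega)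
      have h5 : ¬ (((x.flatMap f).length : ℤ) + L * (l - x.length) + k < 0) := by omega
      simp only [im, im1, h5, if_false, Option.elim]
      rw [List.getElem?_eq_none]
      omega

theorem cover' (f : Γ → List A) (x : List Γ) {a b K : ℤ} (hab : a ≤ b) (h1 : cut L f x a ≤ K)
    (h2 : K < cut L f x b) : ∃ m, a ≤ m ∧ m < b ∧ cut L f x m ≤ K ∧ K < cut L f x (m + 1) := by
  obtain ⟨n, hn⟩ := Int.eq_ofNat_of_zero_le (show 0 ≤ b - a by omega)
  obtain rfl : b = a + n := by omega
  exact Pool.H20D.cover _ K n a h1 h2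

theorem same_cut_nat {x y : List Γ} {a b lo hi : ℤ} (h : Same x a y b lo hi) (f : Γ → List A) (n : ℕ) :
    ∀ m : ℤ, lo ≤ m → m + n ≤ hi →
      cut L f x (a + (m + n)) - cut L f x (a + m) = cut L f y (b + (m + n)) - cut L f y (b + m) := by
  induction n with
  | zero => intro m _ _; simp
  | succ n ih =>
    intro m h1 h2
    push_cast at h2
    have h3 := ih m h1 (by omega)
    have h4 := h (m + n) (by omega) (by omega)
    have h5 := cut_succ (L := L) f x (a + (m + n))
    have h6 := cut_succ (L := L) f y (b + (m + n))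
    rw [h4] at h5
    have e1 : a + (m + ((n + 1 : ℕ) : ℤ)) = a + (m + n) + 1 := by push_cast; ring
    have e2 : b + (m + ((n + 1 : ℕ) : ℤ)) = b + (m + n) + 1 := by push_cast; ring
    rw [e1, e2, h5, h6]
    omega

theorem same_cut {x y : List Γ} {a b lo hi : ℤ} (h : Same x a y b lo hi) (f : Γ → List A) {m m' : ℤ}
    (h1 : lo ≤ m) (h2 : m ≤ m') (h3 : m' ≤ hi) :
    cut L f x (a + m') - cut L f x (a + m) = cut L f y (b + m') - cut L f y (b + m) := by
  obtain ⟨n, hn⟩ := Int.eq_ofNat_of_zero_le (show 0 ≤ m' - m by omega)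
  obtain rfl : m' = m + n := by omega
  exact same_cut_nat h f n m h1 h3

/-- the cuts relative to the centre -/
theorem same_cut0 {x y : List Γ} {a b lo hi : ℤ} (h : Same x a y b lo hi) (f : Γ → List A) (h0 : lo ≤ 0)
    (h0' : 0 ≤ hi) {m : ℤ} (h1 : lo ≤ m) (h2 : m ≤ hi) :
    cut L f x (a + m) - cut L f x a = cut L f y (b + m) - cut L f y b := by
  have e1 := same_cut (L := L) h f (m := lo) (m' := m) le_rfl h1 h2
  have e2 := same_cut (L := L) h f (m := lo) (m' := 0) le_rfl h0 h0'
  simp only [add_zero] at e2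
  omega

theorem same_im {x y : List Γ} {a b lo hi : ℤ} (h : Same x a y b lo hi) (f : Γ → List A) (h0 : lo ≤ 0)
    (h0' : 0 ≤ hi) {K : ℤ} (h1 : cut L f x (a + lo) ≤ K) (h2 : K < cut L f x (a + hi)) :
    im f x K = im f y (K - cut L f x a + cut L f y b) := by
  obtain ⟨m, h3, h4, h5, h6⟩ := cover' f x (by omega) h1 h2
  obtain ⟨m, rfl⟩ : ∃ m', m = a + m' := ⟨m - a, by omega⟩
  have h7 := h m (by omega) (by omega)
  have h8 := same_cut0 (L := L) h f h0 h0' (m := m) (by omega) (by omega)
  have h9 := cut_succ (L := L) f x (a + m)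
  have h10 := im_cut (L := L) f x (a + m) (K - cut L f x (a + m)) (by omega) (by omega)
  have h11 := im_cut (L := L) f y (b + m) (K - cut L f x (a + m)) (by omega) (by rw [← h7]; omega)
  rw [← h7, ← h10] at h11
  have e3 : cut L f x (a + m) + (K - cut L f x (a + m)) = K := by ring
  have e4 : cut L f y (b + m) + (K - cut L f x (a + m))
      = K - cut L f x a + cut L f y b := by omega
  rw [e3, e4] at h11
  exact h11.symm

/-- the image changes at the left end of the word -/
theorem im_neg (f : Γ → List A) (x : List Γ) {K : ℤ} (h : K < 0) : im f x K = none := by simp [im, h]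

theorem im_ge (f : Γ → List A) (x : List Γ) {K : ℤ} (h : ((x.flatMap f).length : ℤ) ≤ K) :
    im f x K = none := by
  have : ¬ K < 0 := by omega
  simp only [im, this, if_false]
  rw [List.getElem?_eq_none]
  omega

theorem im_mid_ne (f : Γ → List A) (x : List Γ) {K : ℤ} (h0 : 0 ≤ K)
    (h : K < ((x.flatMap f).length : ℤ)) : im f x K ≠ none := by
  have : ¬ K < 0 := by omega
  simp only [im, this, if_false]
  rw [List.getElem?_eq_getElem (by omega)]
  simp

/-- two words with the same images as functions are equal -/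
theorem eq_of_im {f g : Γ → List A} {x y : List Γ} (h : ∀ K, im f x K = im g y K) :
    x.flatMap f = y.flatMap g := by
  apply List.ext_getElem?
  intro n
  have := h n
  have h0 : ¬ ((n : ℤ) < 0) := by omega
  simp only [im, h0, if_false, Int.toNat_natCast] at this
  exact this

theorem im_of_eq {f g : Γ → List A} {x y : List Γ} (h : x.flatMap f = y.flatMap g) (K : ℤ) :
    im f x K = im g y K := by
  simp only [im, h]

/-- gluing two intervals with the same period -/
theorem per_union {u : ℤ → Option A} {lo hi lo' hi' p : ℤ} (h : Per u lo hi p) (h' : Per u lo' hi' p)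
    (h1 : lo ≤ lo') (h2 : lo' + |p| ≤ hi) : Per u lo hi' p := by
  intro K k1 k2 k3 k4
  by_cases hc : K < hi ∧ K + p < hi
  · exact h K k1 hc.1 k3 hc.2
  · refine h' K ?_ k2 ?_ k4
    · rcases abs_cases p with hp | hp <;> omega
    · rcases abs_cases p with hp | hp <;> omega

theorem per_mono {u : ℤ → Option A} {lo hi lo' hi' p : ℤ} (h : Per u lo hi p)
    (h1 : lo ≤ lo') (h2 : hi' ≤ hi) : Per u lo' hi' p :=
  fun K k1 k2 k3 k4 => h K (by omega) (by omega) (by omega) (by omega)

end Pool.H20E
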