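import Pool.Agent.H.h20E.Follow
import Pool.Agent.H.h20D.Chain

/-!
The chain bound for solutions whose letters are not longer than the factors of length `q`.
-/

set_option autoImplicit false

namespace Pool.H20E

open Pool.H20D (im lt im1 Same Per lt_neg lt_ge lt_mid lt_none_iff psi length_flatMap_eq)

variable {Γ A : Type}

/-- Every letter of `x` has an image of length at most `M` and every factor of length `q` of `x` has an image of
length at least `M`. -/
def Win (q M : ℕ) (f : Γ → List A) (x : List Γ) : Prop :=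
  (∀ a ∈ x, (f a).length ≤ M) ∧ ∀ y, y <:+: x → y.length = q → M ≤ (y.flatMap f).length

theorem Win.succ {q M : ℕ} {f : Γ → List A} {x : List Γ} (h : Win q M f x) : Win (q + 1) M f x := by
  refine ⟨h.1, fun y hy hl => ?_⟩
  obtain ⟨a, y, rfl⟩ := List.exists_cons_of_length_eq_add_one hl
  have h1 : y <:+: x := ((List.suffix_cons a y).isInfix).trans hy
  have h2 := h.2 y h1 (by simpa using hl)
  rw [List.flatMap_cons, List.length_append]
  omega

/-- the constant which bounds the differences in short crossings -/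
def bq (q : ℕ) : ℕ := 1 + (2 * q + 5) * q + (2 * q + 5) * q * q

def nq (q : ℕ) : ℕ := 6 * bq q + q + 3

def rq (q : ℕ) : ℕ := nq q * q

def DQ (q M : ℕ) : ℤ := 2 * (bq q * M)
def RQ (q M : ℕ) : ℤ := 2 * DQ q M + (q + 3) * M
def GQ (q M : ℕ) : ℤ := RQ q M + DQ q M

theorem GQ_eq (q M : ℕ) : GQ q M = nq q * M := by
  simp only [GQ, RQ, DQ, nq]
  push_cast
  ring

theorem geo_mk {q M : ℕ} {f : Γ → List A} {x : List Γ}
    (h1 : ∀ l, cut M f x (l + 1) ≤ cut M f x l + M) (h2 : ∀ l, cut M f x l + M ≤ cut M f x (l + q)) :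
    Geo q (rq q) M (GQ q M) (cut M f x) := by
  have h0 : Geo q (rq q) M 0 (cut M f x) :=
    ⟨cut_le_succ f x, h1, h2, fun l => by
      have := cut_mono (L := M) f x (show l ≤ l + (rq q : ℕ) by omega)
      omega⟩
  refine ⟨cut_le_succ f x, h1, h2, fun l => ?_⟩
  have h3 := h0.win_n l (nq q)
  rw [GQ_eq]
  simp only [rq]
  push_cast
  exact h3

theorem geo_of_win {q M : ℕ} (hq : 1 ≤ q) {f : Γ → List A} {x : List Γ} (h : Win q M f x) :
    Geo q (rq q) M (GQ q M) (cut M f x) := by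
  refine geo_mk ?_ ?_
  · intro l
    rw [cut_succ]
    cases hx : lt x l with
    | none => simp [len1]
    | some a =>
      have ha : a ∈ x := by
        simp only [lt] at hx
        split_ifs at hx
        exact List.mem_of_getElem? hx
      have := h.1 a ha
      simp only [len1, Option.elim]
      omega
  · intro l
    by_cases hc : 0 ≤ l ∧ l + q ≤ x.length
    · obtain ⟨n, rfl⟩ := Int.eq_ofNat_of_zero_le hc.1
      have hn : n + q ≤ x.length := by omega
      have e : (n : ℤ) + q = ((n + q : ℕ) : ℤ) := by push_cast; ring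
      rw [e, cut_mid f x n (by omega), cut_mid f x (n + q) hn, List.take_add, List.flatMap_append,
        List.length_append]
      have h2 := h.2 ((x.drop n).take q)
        ((List.take_prefix q _).isInfix.trans (List.drop_suffix n x).isInfix) (by simp; omega)
      push_cast
      omega
    · -- the window contains the extra letter
      rcases lt_or_ge l 0 with h1 | h1
      · have e1 := cut_succ (L := M) f x l
        rw [lt_neg x h1] at e1
        simp only [len1, Option.elim] at e1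
        have e2 := cut_mono (L := M) f x (show l + 1 ≤ l + q by omega)
        omega
      · have e1 := cut_succ (L := M) f x (l + q - 1)
        rw [lt_ge x (by omega)] at e1
        simp only [len1, Option.elim] at e1
        have e2 := cut_mono (L := M) f x (show l ≤ l + q - 1 by omega)
        rw [sub_add_cancel] at e1
        omega

/-- the window of `2 r` letters around a cut -/
def wd (r : ℕ) (x : List Γ) (l : ℤ) : Fin (2 * r) → Option Γ := fun m => lt x (l - r + (m : ℕ))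

theorem same_of_wd {r : ℕ} {x y : List Γ} {a b : ℤ} (h : wd r x a = wd r y b) :
    Same x a y b (-r) r := by
  intro m h1 h2
  have h3 := congrFun h ⟨(m + r).toNat, by omega⟩
  simp only [wd] at h3
  have e1 : a - (r : ℤ) + (((m + (r : ℤ)).toNat : ℕ) : ℤ) = a + m := by omega
  have e2 : b - (r : ℤ) + (((m + (r : ℤ)).toNat : ℕ) : ℤ) = b + m := by omega
  rwa [e1, e2] at h3

theorem _root_.Pool.H20D.Same.trans' {x y z : List Γ} {a b c lo hi : ℤ} (h : Same x a y b lo hi)
    (h' : Same y b z c lo hi) : Same x a z c lo hi :=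
  fun m h1 h2 => (h m h1 h2).trans (h' m h1 h2)

/-- the windows which occur -/
def TT (r : ℕ) (S : Set (List Γ × List Γ)) : Set (Fin (2 * r) → Option Γ) :=
  {w | ∃ e ∈ S, ∃ l, w = wd r e.1 l ∨ w = wd r e.2 l}

/-- the deep windows which occur -/
def DD (r M : ℕ) (f : Γ → List A) (D R : ℤ) (S : Set (List Γ × List Γ)) : Set (Fin (2 * r) → Option Γ) :=
  {w | ∃ e ∈ S, ∃ l, (w = wd r e.1 l ∧ Deep M f D R e.1 l) ∨ (w = wd r e.2 l ∧ Deep M f D R e.2 l)}

/-- the pairs of windows at close cuts -/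
def FF (r M : ℕ) (f : Γ → List A) (S : Set (List Γ × List Γ)) :
    Set ((Fin (2 * r) → Option Γ) × (Fin (2 * r) → Option Γ)) :=
  {w | ∃ e ∈ S, ∃ l l' : ℤ, |cut M f e.1 l - cut M f e.2 l'| ≤ M ∧ w = (wd r e.1 l, wd r e.2 l')}

theorem mem_TT {r : ℕ} {S : Set (List Γ × List Γ)} {w : Fin (2 * r) → Option Γ} (h : w ∈ TT r S) :
    ∃ e ∈ S, ∃ u, (u = e.1 ∨ u = e.2) ∧ ∃ l, w = wd r u l := by
  obtain ⟨e, he, l, h | h⟩ := h
  · exact ⟨e, he, e.1, Or.inl rfl, l, h⟩
  · exact ⟨e, he, e.2, Or.inr rfl, l, h⟩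

theorem DD_intro {r M : ℕ} {f : Γ → List A} {D R : ℤ} {S : Set (List Γ × List Γ)} {e : List Γ × List Γ}
    (he : e ∈ S) {u : List Γ} (hu : u = e.1 ∨ u = e.2) {l : ℤ} (hd : Deep M f D R u l) :
    wd r u l ∈ DD r M f D R S := by
  rcases hu with rfl | rfl
  · exact ⟨e, he, l, Or.inl ⟨rfl, hd⟩⟩
  · exact ⟨e, he, l, Or.inr ⟨rfl, hd⟩⟩

theorem DD_elim {r M : ℕ} {f : Γ → List A} {D R : ℤ} {S : Set (List Γ × List Γ)}
    {w : Fin (2 * r) → Option Γ} (h : w ∈ DD r M f D R S) :
    ∃ e ∈ S, ∃ u, (u = e.1 ∨ u = e.2) ∧ ∃ l, w = wd r u l ∧ Deep M f D R u l := by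
  obtain ⟨e, he, l, h | h⟩ := h
  · exact ⟨e, he, e.1, Or.inl rfl, l, h⟩
  · exact ⟨e, he, e.2, Or.inr rfl, l, h⟩

/-- words all of whose windows occur inherit the geometry -/
theorem geo_transfer {q M : ℕ} {f : Γ → List A} {S : Set (List Γ × List Γ)}
    (hS : ∀ e ∈ S, Geo q (rq q) M (GQ q M) (cut M f e.1) ∧ Geo q (rq q) M (GQ q M) (cut M f e.2))
    (hq : 1 ≤ q) {x : List Γ} (hx : ∀ l, wd (rq q) x l ∈ TT (rq q) S) :
    Geo q (rq q) M (GQ q M) (cut M f x) := by
  have hr : q ≤ rq q := by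
    simp only [rq, nq]
    have : 1 * q ≤ (6 * bq q + q + 3) * q := Nat.mul_le_mul_right q (by omega)
    omega
  have key : ∀ l, ∃ u m, Same x l u m (-(rq q : ℕ)) (rq q : ℕ) ∧ Geo q (rq q) M (GQ q M) (cut M f u) := by
    intro l
    obtain ⟨e, he, u, hu, m, hm⟩ := mem_TT (hx l)
    refine ⟨u, m, same_of_wd hm, ?_⟩
    rcases hu with rfl | rfl
    · exact (hS e he).1
    · exact (hS e he).2
  refine geo_mk ?_ ?_
  · intro l
    obtain ⟨u, m, hs, g⟩ := key l
    have h1 := same_cut0 (L := M) hs f (m := 1) (by omega) (by omega) (by omega) (by omega)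
    have := g.step m
    omega
  · intro l
    obtain ⟨u, m, hs, g⟩ := key l
    have h1 := same_cut0 (L := M) hs f (m := q) (by omega) (by omega) (by omega) (by omega)
    have := g.win m
    omega

theorem deep_iff {q M : ℕ} {f : Γ → List A} {S : Set (List Γ × List Γ)}
    (hS : ∀ e ∈ S, Geo q (rq q) M (GQ q M) (cut M f e.1) ∧ Geo q (rq q) M (GQ q M) (cut M f e.2))
    {x : List Γ} (g : Geo q (rq q) M (GQ q M) (cut M f x)) {l : ℤ} (hx : wd (rq q) x l ∈ TT (rq q) S) :
    Deep M f (DQ q M) (RQ q M) x l ↔ wd (rq q) x l ∈ DD (rq q) M f (DQ q M) (RQ q M) S := by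
  have hG : RQ q M ≤ GQ q M := by
    simp only [GQ]
    have : 0 ≤ DQ q M := by simp only [DQ]; positivity
    omega
  constructor
  · intro hd
    obtain ⟨e, he, u, hu, m, hm⟩ := mem_TT hx
    have gu : Geo q (rq q) M (GQ q M) (cut M f u) := by
      rcases hu with h | h
      · rw [h]
        exact (hS e he).1
      · rw [h]
        exact (hS e he).2
    rw [hm]
    exact DD_intro he hu (hd.transfer (same_of_wd hm) gu hG)
  · intro h
    obtain ⟨e, he, u, hu, m, hm, hd⟩ := DD_elim h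
    exact hd.transfer (same_of_wd hm).symm g hG

section

variable [Fintype Γ] [DecidableEq Γ]

/-- the length of the image as a linear functional -/
def lam (f : Γ → List A) : (Γ → ℚ) →ₗ[ℚ] ℚ := ∑ a, ((f a).length : ℚ) • LinearMap.proj a

theorem lam_psi {L : ℕ} (f : Γ → List A) (x : List Γ) {l : ℤ} (h0 : 0 ≤ l) (h1 : l ≤ x.length) :
    lam f (psi x l) = cut L f x l := by
  obtain ⟨n, rfl⟩ := Int.eq_ofNat_of_zero_le h0
  rw [cut_mid f x n (by omega)]
  push_cast
  rw [length_flatMap_eq]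
  simp only [lam, LinearMap.coe_sum, Finset.sum_apply, LinearMap.smul_apply, LinearMap.proj_apply,
    smul_eq_mul, psi, Int.toNat_natCast]

/-- the crossings of an equation solved by `f` -/
def cross (r N : ℕ) (f : Γ → List A) (D R : ℤ) (U V : List Γ) :
    Set ((Γ → ℚ) × (((Fin (2 * r) → Option Γ) × (Fin (2 * r) → Option Γ)) ×
      ((Fin (2 * r) → Option Γ) × (Fin (2 * r) → Option Γ)))) :=
  {c | ∃ l₁ l₂ l₁' l₂' : ℤ, 0 ≤ l₁ ∧ l₁ < l₂ ∧ l₂ ≤ U.length ∧ ¬ Deep N f D R U l₁ ∧ ¬ Deep N f D R U l₂ ∧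
    (∀ l, l₁ < l → l < l₂ → Deep N f D R U l) ∧ Al (cut N f U) (cut N f V) l₁ l₁' ∧
    Al (cut N f U) (cut N f V) l₂ l₂' ∧
    c = (psi U l₂ - psi U l₁ - (psi V l₂' - psi V l₁'), (wd r U l₁, wd r V l₁'), (wd r U l₂, wd r V l₂'))}

omit [Fintype Γ] [DecidableEq Γ] in
theorem al_range {q r N : ℕ} {G : ℤ} {f : Γ → List A} {U V : List Γ} (hN : 1 ≤ N)
    (gU : Geo q r N G (cut N f U)) (gV : Geo q r N G (cut N f V)) (e : U.flatMap f = V.flatMap f)
    {l l' : ℤ} (h0 : 0 ≤ l) (h1 : l ≤ U.length) (a : Al (cut N f U) (cut N f V) l l') :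
    0 ≤ l' ∧ l' ≤ V.length := by
  obtain ⟨b1, b2⟩ := a
  have s1 := gU.le h0
  have s2 := gU.le h1
  rw [cut_zero] at s1
  rw [cut_ge f U le_rfl, e] at s2
  have z : (N : ℤ) * ((U.length : ℤ) - U.length) = 0 := by ring
  rw [z] at s2
  constructor
  · have := gV.lt_of (a := 0) (b := l' + 1) (by rw [cut_zero]; omega)
    omega
  · have := gV.lt_of (a := l') (b := V.length + 1) (by
      rw [cut_ge f V (show (V.length : ℤ) ≤ V.length + 1 by omega)]
      have z : (N : ℤ) * ((V.length : ℤ) + 1 - V.length) = N := by ring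
      rw [z]
      omega)
    omega

theorem lam_cross {q r N M : ℕ} {G : ℤ} {f' f : Γ → List A} {U V : List Γ} (hN : 1 ≤ N)
    (gU : Geo q r N G (cut N f' U)) (gV : Geo q r N G (cut N f' V)) (e : U.flatMap f' = V.flatMap f')
    {l₁ l₂ l₁' l₂' : ℤ} (h0 : 0 ≤ l₁) (h12 : l₁ < l₂) (h2 : l₂ ≤ U.length)
    (a₁ : Al (cut N f' U) (cut N f' V) l₁ l₁') (a₂ : Al (cut N f' U) (cut N f' V) l₂ l₂') :
    lam f (psi U l₂ - psi U l₁ - (psi V l₂' - psi V l₁'))
      = (((cut M f U l₂ - cut M f V l₂') - (cut M f U l₁ - cut M f V l₁') : ℤ) : ℚ) := by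
  have r1 := al_range hN gU gV e h0 (by omega) a₁
  have r2 := al_range hN gU gV e (by omega) h2 a₂
  rw [map_sub, map_sub, map_sub, lam_psi (L := M) f U (by omega) h2, lam_psi (L := M) f U h0 (by omega),
    lam_psi (L := M) f V r2.1 r2.2, lam_psi (L := M) f V r1.1 r1.2]
  push_cast
  ring

end

end Pool.H20E
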