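import Pool.Agent.H.h20E.Geo

/-!
Crossing a periodic run.
-/

set_option autoImplicit false

namespace Pool.H20E

open Pool.H20D (im lt im1 Same Per lt_neg lt_ge lt_mid lt_none_iff)

variable {Γ A : Type}

section index

variable {q r : ℕ} {N G : ℤ} {Q Q' : ℤ → ℤ} {l₁ l₂ l₁' l₂' : ℤ}

/-- the cut `l'` of the second word is the last one not behind the cut `l` of the first word -/
def Al (Q Q' : ℤ → ℤ) (l l' : ℤ) : Prop := Q' l' ≤ Q l ∧ Q l < Q' (l' + 1)

theorem le_index (gU : Geo q r N G Q) (gV : Geo q r N G Q') (h : l₁ ≤ l₂) (a₁ : Al Q Q' l₁ l₁')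
    (a₂ : Al Q Q' l₂ l₂') : l₁' ≤ l₂' := by
  have := gU.le h
  have := gV.lt_of (show Q' l₁' < Q' (l₂' + 1) by have := a₁.1; have := a₂.2; omega)
  omega

theorem long_index (gU : Geo q r N G Q) (gV : Geo q r N G Q') (a₁ : Al Q Q' l₁ l₁')
    (a₂ : Al Q Q' l₂ l₂') (n : ℕ) (h : l₁ + n * q ≤ l₂) : l₁' + n ≤ l₂' := by
  by_contra hc
  push Not at hc
  have h1 := gU.win_int n h
  have h2 := gV.step_n l₁' n
  have h3 := gV.le (show l₂' + 1 ≤ l₁' + n by omega)
  have := a₁.1
  have := a₂.2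
  omega

theorem short_index (gU : Geo q r N G Q) (gV : Geo q r N G Q') (a₁ : Al Q Q' l₁ l₁')
    (a₂ : Al Q Q' l₂ l₂') (n : ℕ) (h : l₂ ≤ l₁ + n) : l₂' ≤ l₁' + n * q := by
  by_contra hc
  push Not at hc
  have h1 := gU.step_n l₁ n
  have h1' := gU.le h
  have h2 := gV.win_n (l₁' + 1) n
  have h3 := gV.le (show l₁' + 1 + n * q ≤ l₂' by omega)
  have := a₁.2
  have := a₂.1
  omega

theorem exists_al (gV : Geo q r N G Q') (l : ℤ) {a b : ℤ} (hab : a ≤ b) (h1 : Q' a ≤ Q l)
    (h2 : Q l < Q' b) : ∃ l', Al Q Q' l l' := by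
  obtain ⟨n, hn⟩ := Int.eq_ofNat_of_zero_le (show 0 ≤ b - a by omega)
  obtain rfl : b = a + n := by omega
  obtain ⟨m, -, -, h3, h4⟩ := Pool.H20D.cover Q' (Q l) n a h1 h2
  exact ⟨m, h3, h4⟩

theorem al_abs (gV : Geo q r N G Q') (a : Al Q Q' l₁ l₁') : |Q l₁ - Q' l₁'| ≤ N := by
  have := gV.step l₁'
  have := a.1
  have := a.2
  rw [abs_le]
  constructor <;> omega

end index

/-- In a solved equation, the cuts of the second word inside a stretch of deep cuts of the first word are deep. -/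
theorem vdeep {q r N : ℕ} {D R G : ℤ} {f : Γ → List A} {U V : List Γ}
    (gU : Geo q r N G (cut N f U)) (gV : Geo q r N G (cut N f V))
    (e : U.flatMap f = V.flatMap f) (hR : N + 2 * D ≤ 2 * R) (hR0 : 0 ≤ R) {l₁ l₂ l₁' l₂' : ℤ}
    (hdp : ∀ l, l₁ < l → l < l₂ → Deep N f D R U l) (h12 : l₁ + 1 < l₂)
    (a₁ : Al (cut N f U) (cut N f V) l₁ l₁') (a₂ : Al (cut N f U) (cut N f V) l₂ l₂') :
    ∀ l', l₁' + 1 + q ≤ l' → l' ≤ l₂' - q → Deep N f D R V l' := by
  intro l' h1 h2
  obtain ⟨p, hp, hpD, hper⟩ := merge' gU hR hR0 (a := l₁ + 1) (b := l₂ - 1) (by omega)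
    (fun l h3 h4 => hdp l (by omega) (by omega))
  have s1 := gU.step l₁
  have s2 := gU.step (l₂ - 1)
  rw [sub_add_cancel] at s2
  have s3 := gV.win (l₁' + 1)
  have s4 := gV.win_back l₂'
  have s5 := gV.le h1
  have s6 := gV.le h2
  have b1 := a₁.2
  have b2 := a₂.1
  refine Deep.of_per hp hpD (lo := cut N f U (l₁ + 1) - R) (hi := cut N f U (l₂ - 1) + R) ?_
    (by omega) (by omega)
  intro K k1 k2 k3 k4
  rw [← im_of_eq e, ← im_of_eq e]
  exact hper K k1 k2 k3 k4

/-- In a solved equation, the cut of the second word behind a nondeep cut of the first word which follows deep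
cuts is not deep. -/
theorem vnondeep {q r N : ℕ} {D R G : ℤ} {f : Γ → List A} {U V : List Γ}
    (gU : Geo q r N G (cut N f U)) (gV : Geo q r N G (cut N f V))
    (e : U.flatMap f = V.flatMap f) (hR : N + D ≤ R) (hR0 : 0 ≤ R) (hD : 0 ≤ D) {l₂ l₂' : ℤ}
    (hdp : Deep N f D R U (l₂ - 1)) (hn : ¬ Deep N f D R U l₂)
    (a₂ : Al (cut N f U) (cut N f V) l₂ l₂') : ¬ Deep N f D R V (l₂' + 1) := by
  rintro ⟨p', hp', hpD', hper'⟩
  obtain ⟨p, hp, hpD, hper⟩ := hdp
  apply hn
  have s1 := gU.step (l₂ - 1)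
  have s1' := gU.mono (l₂ - 1)
  rw [sub_add_cancel] at s1 s1'
  have s2 := gV.step l₂'
  have b1 := a₂.1
  have b2 := a₂.2
  -- the image of the first word has period p' on the right part
  have h2 : Per (im f U) (cut N f V (l₂' + 1) - R) (cut N f V (l₂' + 1) + R) p' := by
    intro K k1 k2 k3 k4
    rw [im_of_eq e, im_of_eq e]
    exact hper' K k1 k2 k3 k4
  -- it also has period p there
  have h3 : Per (im f U) (cut N f V (l₂' + 1) - R) (cut N f V (l₂' + 1) + R) p := by
    refine Per.extend h2 hp'.ne' (lo' := cut N f V (l₂' + 1) - R) (hi' := cut N f U (l₂ - 1) + R) ?_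
      le_rfl (by omega) ?_
    · exact per_mono hper (by omega) le_rfl
    · rw [abs_of_pos hp, abs_of_pos hp']
      omega
  refine Deep.of_per hp hpD (per_union hper h3 (by omega) ?_) (by omega) (by omega)
  rw [abs_of_pos hp]
  omega

theorem crossA {q r M N : ℕ} {D R G D' R' G' B : ℤ} {f f' : Γ → List A} {U V : List Γ}
    (gU : Geo q r M G (cut M f U)) (gV : Geo q r M G (cut M f V))
    (gU' : Geo q r N G' (cut N f' U)) (gV' : Geo q r N G' (cut N f' V))
    (e : U.flatMap f = V.flatMap f) (e' : U.flatMap f' = V.flatMap f')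
    (hdU : ∀ l, Deep M f D R U l ↔ Deep N f' D' R' U l)
    (hdV : ∀ l, Deep M f D R V l ↔ Deep N f' D' R' V l)
    (hD : 0 ≤ D) (hR : M + 2 * D ≤ R) (hD' : 0 ≤ D') (hR' : N + 2 * D' ≤ R')
    (hq : 1 ≤ q) (hB : (1 + ((2 * q + 5) * q : ℕ) + ((2 * q + 5) * q * q : ℕ)) * (M : ℤ) ≤ B)
    (hB2 : (q + 2) * (M : ℤ) ≤ B)
    {l₁ l₂ l₁' l₂' : ℤ} (h12 : l₁ < l₂)
    (hn₂ : ¬ Deep M f D R U l₂) (hdp : ∀ l, l₁ < l → l < l₂ → Deep M f D R U l)
    (a₁ : Al (cut N f' U) (cut N f' V) l₁ l₁') (a₂ : Al (cut N f' U) (cut N f' V) l₂ l₂')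
    (h₁ : |cut M f U l₁ - cut M f V l₁'| ≤ M) : |cut M f U l₂ - cut M f V l₂'| ≤ B := by
  have hle := le_index gU' gV' h12.le a₁ a₂
  have h₁' := abs_le.1 h₁
  rcases le_or_gt l₂ (l₁ + ((2 * q + 5) * q : ℕ)) with hs | hl
  · -- short crossing
    have i1 := short_index gU' gV' a₁ a₂ _ hs
    have s1 := gU.le h12.le
    have s2 := gU.le hs
    have s3 := gU.step_n l₁ ((2 * q + 5) * q)
    have s4 := gV.le hle
    have s5 := gV.le (show l₂' ≤ l₁' + (((2 * q + 5) * q * q : ℕ) : ℤ) by push_cast at i1 ⊢; linarith)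
    have s6 := gV.step_n l₁' ((2 * q + 5) * q * q)
    have m1 : 0 ≤ (((2 * q + 5) * q : ℕ) : ℤ) * (M : ℤ) := by positivity
    have m2 : 0 ≤ (((2 * q + 5) * q * q : ℕ) : ℤ) * (M : ℤ) := by positivity
    have hB' : (M : ℤ) + (((2 * q + 5) * q : ℕ) : ℤ) * (M : ℤ) + (((2 * q + 5) * q * q : ℕ) : ℤ) * (M : ℤ) ≤ B := by
      linarith
    rw [abs_le]
    constructor <;> linarith
  · -- long crossing
    have hl' : l₁ + ((2 * q + 5 : ℕ) : ℤ) * q ≤ l₂ := by push_cast at hl ⊢; linarith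
    have i1 := long_index gU' gV' a₁ a₂ (2 * q + 5) hl'
    have h12' : l₁ + 1 < l₂ := by
      have : (1 : ℤ) ≤ ((2 * q + 5) * q : ℕ) := by
        have : 1 ≤ (2 * q + 5) * q := Nat.mul_pos (by omega) hq
        exact_mod_cast this
      omega
    have hqM : 0 ≤ (q : ℤ) * M := by positivity
    -- deep cuts of the second word
    have vd : ∀ l', l₁' + 1 + q ≤ l' → l' ≤ l₂' - q → Deep M f D R V l' := by
      intro l' h1 h2
      rw [hdV]
      exact vdeep gU' gV' e' (by omega) (by omega)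
        (fun l h3 h4 => (hdU l).1 (hdp l h3 h4)) h12' a₁ a₂ l' h1 h2
    have vn : ¬ Deep M f D R V (l₂' + 1) := by
      rw [hdV]
      exact vnondeep gU' gV' e' (by omega) (by omega) hD' ((hdU _).1 (hdp _ (by omega) (by omega)))
        (fun h => hn₂ ((hdU _).2 h)) a₂
    obtain ⟨p, hp, hpD, hper⟩ := merge' gU (by omega) (by omega) (a := l₁ + 1) (b := l₂ - 1) (by omega)
      (fun l h3 h4 => hdp l (by omega) (by omega))
    obtain ⟨p', hp', hpD', hper'⟩ := merge' gV (by omega) (by omega) (a := l₁' + 1 + q) (b := l₂' - q)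
      (by push_cast at i1; omega) vd
    have t1 := gU.step l₁
    have t2 := gU.step (l₂ - 1)
    rw [sub_add_cancel] at t2
    have t3 := gU.win_int (2 * q + 5) hl'
    have t4 : cut M f V l₁' + ((2 : ℕ) : ℤ) * M ≤ cut M f V l₂' :=
      gV.win_int 2 (by push_cast at i1 ⊢; omega)
    have t5 := gV.step_n l₁' (1 + q)
    have t6 := gV.mono l₂'
    have t7 := gV.step l₂'
    have t8 := gV.step_int (show l₂' - q ≤ l₂' by omega)
    have e1 : l₁' + ((1 + q : ℕ) : ℤ) = l₁' + 1 + q := by push_cast; ring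
    rw [e1] at t5
    have e2 : l₂' - (l₂' - (q : ℤ)) = q := by ring
    rw [e2] at t8
    push_cast at t3 t4 t5
    have r1 : (2 * (q : ℤ) + 5) * M = 2 * (q * M) + 5 * M := by ring
    have r2 : (1 + (q : ℤ)) * M = M + q * M := by ring
    have r3 : ((q : ℤ) + 2) * M = q * M + 2 * M := by ring
    rw [r1] at t3
    rw [r2] at t5
    rw [r3] at hB2
    have hM0 : (0 : ℤ) ≤ M := by omega
    -- the nondeep cut of the second word is behind the run
    have y1 : cut M f U (l₂ - 1) < cut M f V (l₂' + 1) := by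
      by_contra hc
      push Not at hc
      apply vn
      refine Deep.of_per hp hpD (lo := cut M f U (l₁ + 1) - R) (hi := cut M f U (l₂ - 1) + R) ?_
        (by omega) (by omega)
      intro K k1 k2 k3 k4
      rw [← im_of_eq e, ← im_of_eq e]
      exact hper K k1 k2 k3 k4
    -- the deep cuts of the second word are before the nondeep cut of the first
    have y2 : cut M f V (l₂' - q) < cut M f U l₂ := by
      by_contra hc
      push Not at hc
      apply hn₂
      refine Deep.of_per hp' hpD' (lo := cut M f V (l₁' + 1 + q) - R) (hi := cut M f V (l₂' - q) + R) ?_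
        (by omega) (by omega)
      intro K k1 k2 k3 k4
      rw [im_of_eq e, im_of_eq e]
      exact hper' K k1 k2 k3 k4
    rw [abs_le]
    constructor <;> omega

/-- agreement behind a crossing -/
theorem crossC {q r M N : ℕ} {D R G D' R' G' : ℤ} {f f' : Γ → List A} {U V : List Γ}
    (gU : Geo q r M G (cut M f U)) (gV : Geo q r M G (cut M f V))
    (gU' : Geo q r N G' (cut N f' U)) (gV' : Geo q r N G' (cut N f' V))
    (e' : U.flatMap f' = V.flatMap f')
    (hdU : ∀ l, Deep M f D R U l ↔ Deep N f' D' R' U l)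
    (hdV : ∀ l, Deep M f D R V l ↔ Deep N f' D' R' V l)
    (hD : 0 ≤ D) (hR : 2 * D + (q + 3) * (M : ℤ) ≤ R) (hD' : 0 ≤ D') (hR' : N + 2 * D' ≤ R')
    (hq : 1 ≤ q) (hG : (1 + ((2 * q + 5) * q : ℕ)) * (M : ℤ) ≤ G) (hr : (2 * q + 5) * q ≤ r)
    {l₁ l₂ l₁' l₂' : ℤ} (h12 : l₁ < l₂) (hdp : ∀ l, l₁ < l → l < l₂ → Deep M f D R U l)
    (a₁ : Al (cut N f' U) (cut N f' V) l₁ l₁') (a₂ : Al (cut N f' U) (cut N f' V) l₂ l₂')
    (h₁ : |cut M f U l₁ - cut M f V l₁'| ≤ M) (h₂ : |cut M f U l₂ - cut M f V l₂'| ≤ M)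
    {Ue Ve : List Γ} {m m' : ℤ} (ee : Ue.flatMap f = Ve.flatMap f) (sU : Same U l₁ Ue m (-r) r)
    (sV : Same V l₁' Ve m' (-r) r)
    (hx : cut M f U l₁ - cut M f V l₁' = cut M f Ue m - cut M f Ve m')
    (ag : ∀ K, K < cut M f U l₁ → im f U K = im f V K) :
    ∀ K, K < cut M f U l₂ → im f U K = im f V K := by
  have h₁' := abs_le.1 h₁
  have h₂' := abs_le.1 h₂
  have hM0 : (0 : ℤ) ≤ M := by omega
  rcases le_or_gt l₂ (l₁ + ((2 * q + 5) * q : ℕ)) with hs | hl
  · -- short crossing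
    intro K hK
    rcases lt_or_ge K (cut M f U l₁) with hK1 | hK1
    · exact ag K hK1
    have w1 := gU.le hs
    have w2 := gU.step_n l₁ ((2 * q + 5) * q)
    have w3 := gU.le (show l₂ ≤ l₁ + (r : ℤ) by
      have : (((2 * q + 5) * q : ℕ) : ℤ) ≤ r := by exact_mod_cast hr
      omega)
    have w4 := gV.wide l₁'
    have w5 := gV.wide_back l₁'
    have w6 := gU.le (show l₁ + -(r : ℤ) ≤ l₁ by omega)
    have e3 : (1 + ((2 * q + 5) * q : ℕ)) * (M : ℤ) = M + ((2 * q + 5) * q : ℕ) * (M : ℤ) := by ring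
    rw [e3] at hG
    have m1 : 0 ≤ (((2 * q + 5) * q : ℕ) : ℤ) * (M : ℤ) := by positivity
    have r1 : l₁' + -(r : ℤ) = l₁' - r := by ring
    have f1 := same_im (L := M) sU f (by omega) (by omega) (K := K) (by omega) (by omega)
    have f2 := same_im (L := M) sV f (by omega) (by omega) (K := K) (by rw [r1]; omega) (by omega)
    rw [f1, f2, im_of_eq ee]
    congr 1
    omega
  · -- long crossing
    have hl' : l₁ + ((2 * q + 5 : ℕ) : ℤ) * q ≤ l₂ := by push_cast at hl ⊢; linarith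
    have i1 := long_index gU' gV' a₁ a₂ (2 * q + 5) hl'
    have h12' : l₁ + 1 < l₂ := by
      have : (1 : ℤ) ≤ ((2 * q + 5) * q : ℕ) := by
        have : 1 ≤ (2 * q + 5) * q := Nat.mul_pos (by omega) hq
        exact_mod_cast this
      omega
    have hqM : 0 ≤ (q : ℤ) * M := by positivity
    have r3 : ((q : ℤ) + 3) * M = q * M + 3 * M := by ring
    rw [r3] at hR
    have vd : ∀ l', l₁' + 1 + q ≤ l' → l' ≤ l₂' - q → Deep M f D R V l' := by
      intro l' h1 h2
      rw [hdV]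
      exact vdeep gU' gV' e' (by omega) (by omega)
        (fun l h3 h4 => (hdU l).1 (hdp l h3 h4)) h12' a₁ a₂ l' h1 h2
    obtain ⟨p, hp, hpD, hper⟩ := merge' gU (by omega) (by omega) (a := l₁ + 1) (b := l₂ - 1) (by omega)
      (fun l h3 h4 => hdp l (by omega) (by omega))
    obtain ⟨p', hp', hpD', hper'⟩ := merge' gV (by omega) (by omega) (a := l₁' + 1 + q) (b := l₂' - q)
      (by push_cast at i1; omega) vd
    have t1 := gU.step l₁
    have t1' := gU.mono l₁
    have t2 := gU.step (l₂ - 1)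
    rw [sub_add_cancel] at t2
    have t3 := gU.le (show l₁ ≤ l₂ - 1 by omega)
    have t5 := gV.step_n l₁' (1 + q)
    have t8 := gV.step_int (show l₂' - q ≤ l₂' by omega)
    have t9 := gV.le (show l₁' + 1 + q ≤ l₂' - q by push_cast at i1; omega)
    have t10 := gV.le (show l₁' ≤ l₁' + 1 + q by omega)
    have e1 : l₁' + ((1 + q : ℕ) : ℤ) = l₁' + 1 + q := by push_cast; ring
    rw [e1] at t5
    have e2 : l₂' - (l₂' - (q : ℤ)) = q := by ring
    rw [e2] at t8
    push_cast at t5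
    have r2 : (1 + (q : ℤ)) * M = M + q * M := by ring
    rw [r2] at t5
    -- the image of the second word has period p
    have hpV : Per (im f V) (cut M f V (l₁' + 1 + q) - R) (cut M f V (l₂' - q) + R) p := by
      refine Per.extend hper' hp'.ne' (lo' := cut M f U l₁ - R + (q * M + 2 * M)) (hi' := cut M f U l₁)
        ?_ (by omega) (by omega) ?_
      · intro K k1 k2 k3 k4
        rw [← ag K k2, ← ag (K + p) k4]
        exact hper K (by omega) (by omega) (by omega) (by omega)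
      · rw [abs_of_pos hp, abs_of_pos hp']
        omega
    -- induction on the position
    have key : ∀ n : ℕ, ∀ K, K < cut M f U l₁ + n → K < cut M f U l₂ → im f U K = im f V K := by
      intro n
      induction n with
      | zero => intro K k1 _; exact ag K (by simpa using k1)
      | succ n ih =>
        intro K k1 k2
        rcases lt_or_ge K (cut M f U l₁) with k3 | k3
        · exact ag K k3
        push_cast at k1
        have h3 := ih (K - p) (by omega) (by omega)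
        have h4 := hper (K - p) (by omega) (by omega) (by omega) (by omega)
        have h5 := hpV (K - p) (by omega) (by omega) (by omega) (by omega)
        rw [sub_add_cancel] at h4 h5
        rw [← h4, h3, h5]
    intro K hK
    exact key (K - cut M f U l₁ + 1).toNat K (by omega) hK

end Pool.H20E
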