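import Pool.Agent.H.h20E.Cross

/-!
Following the alignment of one solution under another morphism.
-/

set_option autoImplicit false

namespace Pool.H20E

open Pool.H20D (im lt im1 Same Per lt_neg lt_ge lt_mid lt_none_iff)

variable {Γ A : Type}

/-- the difference of the cuts is the one at an occurrence of the same pair of windows in a solved equation -/
def Ex (r M : ℕ) (f : Γ → List A) (S : Set (List Γ × List Γ)) (U V : List Γ) (l l' : ℤ) : Prop :=
  ∃ e ∈ S, ∃ m m' : ℤ, Same U l e.1 m (-r) r ∧ Same V l' e.2 m' (-r) r ∧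
    |cut M f e.1 m - cut M f e.2 m'| ≤ M ∧
    cut M f U l - cut M f V l' = cut M f e.1 m - cut M f e.2 m'

theorem Ex.abs {r M : ℕ} {f : Γ → List A} {S : Set (List Γ × List Γ)} {U V : List Γ} {l l' : ℤ}
    (h : Ex r M f S U V l l') : |cut M f U l - cut M f V l'| ≤ M := by
  obtain ⟨e, -, m, m', -, -, h1, h2⟩ := h
  rwa [h2]

/-- the hypotheses on a pair of equations which are followed -/
structure Fol (q r M N : ℕ) (D R G D' R' G' : ℤ) (f f' : Γ → List A) (S : Set (List Γ × List Γ))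
    (U V : List Γ) : Prop where
  hq : 1 ≤ q
  hM : 1 ≤ M
  hN : 1 ≤ N
  hr : (2 * q + 5) * q ≤ r
  hD : 0 ≤ D
  hR : 2 * D + (q + 3) * (M : ℤ) ≤ R
  hG : R + D ≤ G
  hD' : 0 ≤ D'
  hR' : N + 2 * D' ≤ R'
  hB : 2 * ((1 + ((2 * q + 5) * q : ℕ) + ((2 * q + 5) * q * q : ℕ)) * (M : ℤ)) ≤ D
  hS : ∀ e ∈ S, e.1.flatMap f = e.2.flatMap f
  hSg : ∀ e ∈ S, Geo q r M G (cut M f e.1) ∧ Geo q r M G (cut M f e.2)
  gU : Geo q r M G (cut M f U)
  gV : Geo q r M G (cut M f V)
  gU' : Geo q r N G' (cut N f' U)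
  gV' : Geo q r N G' (cut N f' V)
  e' : U.flatMap f' = V.flatMap f'
  hdU : ∀ l, Deep M f D R U l ↔ Deep N f' D' R' U l
  hdV : ∀ l, Deep M f D R V l ↔ Deep N f' D' R' V l
  hF : ∀ l l', |cut N f' U l - cut N f' V l'| ≤ N → ∃ e ∈ S, ∃ m m' : ℤ, Same U l e.1 m (-r) r ∧
    Same V l' e.2 m' (-r) r ∧ |cut M f e.1 m - cut M f e.2 m'| ≤ M

/-- the crossings are exact -/
def Crs (r M N : ℕ) (D R : ℤ) (f f' : Γ → List A) (S : Set (List Γ × List Γ)) (U V : List Γ) : Prop :=
  ∀ l₁ l₂ l₁' l₂' : ℤ, 0 ≤ l₁ → l₁ < l₂ → l₂ ≤ U.length → ¬ Deep M f D R U l₁ → ¬ Deep M f D R U l₂ →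
    (∀ l, l₁ < l → l < l₂ → Deep M f D R U l) → Al (cut N f' U) (cut N f' V) l₁ l₁' →
    Al (cut N f' U) (cut N f' V) l₂ l₂' → Ex r M f S U V l₁ l₁' → Ex r M f S U V l₂ l₂'

section

variable {q r M N : ℕ} {D R G D' R' G' : ℤ} {f f' : Γ → List A} {S : Set (List Γ × List Γ)}
  {U V : List Γ}

theorem Fol.q_le (h : Fol q r M N D R G D' R' G' f f' S U V) : q ≤ r := by
  have := h.hr
  have h2 : 1 * q ≤ (2 * q + 5) * q := Nat.mul_le_mul_right q (by omega)
  omega

theorem Fol.DR (h : Fol q r M N D R G D' R' G' f f' S U V) : D ≤ R := by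
  have h1 := h.hR
  have h2 := h.hD
  have : 0 ≤ ((q : ℤ) + 3) * (M : ℤ) := by positivity
  omega

theorem Fol.hB' (h : Fol q r M N D R G D' R' G' f f' S U V) :
    (1 + ((2 * q + 5) * q : ℕ)) * (M : ℤ) ≤ G ∧ (q + 2) * (M : ℤ) ≤
      (1 + ((2 * q + 5) * q : ℕ) + ((2 * q + 5) * q * q : ℕ)) * (M : ℤ) ∧ (M : ℤ) ≤
      (1 + ((2 * q + 5) * q : ℕ) + ((2 * q + 5) * q * q : ℕ)) * (M : ℤ) := by
  have h1 := h.hB
  have h2 := h.hG
  have h3 := h.hD
  have h4 := h.DR
  have hq := h.hq
  have m0 : (0 : ℤ) ≤ M := by positivity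
  have m1 : 0 ≤ (((2 * q + 5) * q * q : ℕ) : ℤ) * (M : ℤ) := by positivity
  have m2 : 0 ≤ (((2 * q + 5) * q : ℕ) : ℤ) * (M : ℤ) := by positivity
  have e1 : (1 + ((2 * q + 5) * q : ℕ) + ((2 * q + 5) * q * q : ℕ)) * (M : ℤ)
      = (1 + ((2 * q + 5) * q : ℕ)) * (M : ℤ) + (((2 * q + 5) * q * q : ℕ) : ℤ) * (M : ℤ) := by ring
  have e2 : (1 + ((2 * q + 5) * q : ℕ)) * (M : ℤ) = M + (((2 * q + 5) * q : ℕ) : ℤ) * (M : ℤ) := by ring
  refine ⟨by linarith, ?_, by linarith⟩
  rw [e1]
  have : ((q : ℤ) + 2) * M ≤ (1 + ((2 * q + 5) * q : ℕ)) * (M : ℤ) := by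
    apply mul_le_mul_of_nonneg_right _ m0
    push_cast
    have : (1 : ℤ) ≤ q := by exact_mod_cast hq
    nlinarith
  linarith

theorem Fol.al (h : Fol q r M N D R G D' R' G' f f' S U V) {l : ℤ} (h0 : 0 ≤ l) (h1 : l ≤ U.length) :
    ∃ l', Al (cut N f' U) (cut N f' V) l l' := by
  have g := h.gU'
  have s1 := g.le h0
  have s2 := g.le h1
  rw [cut_zero] at s1
  rw [cut_ge f' U le_rfl] at s2
  refine exists_al h.gV' l (a := 0) (b := V.length + 1) (by omega) ?_ ?_
  · rw [cut_zero]
    exact s1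
  · rw [cut_ge f' V (by omega)]
    have := h.e'
    have hN := h.hN
    rw [h.e'] at s2
    have e1 : (N : ℤ) * ((V.length : ℤ) + 1 - V.length) = N := by ring
    have e2 : (N : ℤ) * ((U.length : ℤ) - U.length) = 0 := by ring
    rw [e1]
    rw [e2] at s2
    omega

theorem Fol.ex_zero (h : Fol q r M N D R G D' R' G' f f' S U V) (hne : U.flatMap f' ≠ []) {l' : ℤ}
    (a : Al (cut N f' U) (cut N f' V) 0 l') : Ex r M f S U V 0 l' := by
  have hq := h.hq
  have hqr := h.q_le
  have hN := h.hN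
  obtain ⟨e, he, m, m', sU, sV, hab⟩ := h.hF 0 l' (al_abs h.gV' a)
  have hU : U ≠ [] := by
    rintro rfl
    exact hne rfl
  have hV : V ≠ [] := by
    rintro rfl
    exact hne (by rw [h.e']; rfl)
  have hU1 : 0 < U.length := List.length_pos_iff.2 hU
  have hV1 : 0 < V.length := List.length_pos_iff.2 hV
  obtain ⟨b1, b2⟩ := a
  rw [cut_zero] at b1 b2
  have c1 : 0 ≤ l' := by
    have := h.gV'.lt_of (a := 0) (b := l' + 1) (by rw [cut_zero]; exact b2)
    omega
  have c2 : l' < q := by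
    have h1 := h.gV'.win 0
    rw [cut_zero, zero_add, zero_add] at h1
    have := h.gV'.lt_of (a := l') (b := q) (by omega)
    exact this
  have hm : m = 0 := by
    have h1 := sU (-1) (by omega) (by omega)
    have h2 := sU 0 (by omega) (by omega)
    rw [lt_neg U (by omega)] at h1
    have h3 : lt e.1 (m + 0) ≠ none := by
      rw [← h2, Ne, lt_none_iff]
      omega
    rw [Ne, lt_none_iff] at h3
    have h4 := (lt_none_iff _ _).1 h1.symm
    omega
  have hm' : m' = l' := by
    have h1 := sV (-l' - 1) (by omega) (by omega)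
    have h2 := sV (-l') (by omega) (by omega)
    rw [lt_neg V (by omega)] at h1
    have h3 : lt e.2 (m' + -l') ≠ none := by
      rw [← h2, Ne, lt_none_iff]
      omega
    rw [Ne, lt_none_iff] at h3
    have h4 := (lt_none_iff _ _).1 h1.symm
    omega
  refine ⟨e, he, m, m', sU, sV, hab, ?_⟩
  have h5 := same_cut0 (L := M) sV f (m := -l') (by omega) (by omega) (by omega) (by omega)
  have e1 : l' + -l' = 0 := by ring
  have e2 : m' + -l' = 0 := by omega
  rw [e1, e2, cut_zero, cut_zero] at h5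
  rw [hm, cut_zero, cut_zero]
  omega

theorem Fol.end_eq (h : Fol q r M N D R G D' R' G' f f' S U V) (hne : U.flatMap f' ≠ [])
    (hx : Ex r M f S U V U.length V.length) : (U.flatMap f).length = (V.flatMap f).length := by
  have hq := h.hq
  have hqr := h.q_le
  obtain ⟨e, he, m, m', sU, sV, hab, hxx⟩ := hx
  have hU : U ≠ [] := by
    rintro rfl
    exact hne rfl
  have hV : V ≠ [] := by
    rintro rfl
    exact hne (by rw [h.e']; rfl)
  have hU1 : 0 < U.length := List.length_pos_iff.2 hU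
  have hV1 : 0 < V.length := List.length_pos_iff.2 hV
  have hm : m = e.1.length := by
    have h1 := sU (-1) (by omega) (by omega)
    have h2 := sU 0 (by omega) (by omega)
    rw [lt_ge U (by omega)] at h2
    have h3 : lt e.1 (m + -1) ≠ none := by
      rw [← h1, Ne, lt_none_iff]
      omega
    rw [Ne, lt_none_iff] at h3
    have h4 := (lt_none_iff _ _).1 h2.symm
    omega
  have hm' : m' = e.2.length := by
    have h1 := sV (-1) (by omega) (by omega)
    have h2 := sV 0 (by omega) (by omega)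
    rw [lt_ge V (by omega)] at h2
    have h3 : lt e.2 (m' + -1) ≠ none := by
      rw [← h1, Ne, lt_none_iff]
      omega
    rw [Ne, lt_none_iff] at h3
    have h4 := (lt_none_iff _ _).1 h2.symm
    omega
  rw [hm, hm', cut_ge f U le_rfl, cut_ge f V le_rfl, cut_ge f e.1 le_rfl, cut_ge f e.2 le_rfl, h.hS e he] at hxx
  have z : ∀ n : ℤ, (M : ℤ) * (n - n) = 0 := fun n => by ring
  rw [z, z, z, z] at hxx
  omega

/-- the last nondeep cut before a nondeep cut -/
theorem exists_prev {p : ℤ → Prop} (h0 : p 0) {l : ℤ} (hl : 0 < l) :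
    ∃ k, 0 ≤ k ∧ k < l ∧ p k ∧ ∀ m, k < m → m < l → ¬ p m := by
  classical
  obtain ⟨k, ⟨h1, h2, h3⟩, h4⟩ := Int.exists_greatest_of_bdd (P := fun k => 0 ≤ k ∧ k < l ∧ p k)
    ⟨l, fun z hz => hz.2.1.le⟩ ⟨0, le_rfl, hl, h0⟩
  refine ⟨k, h1, h2, h3, fun m h5 h6 h7 => ?_⟩
  have := h4 m ⟨by omega, h6, h7⟩
  omega

theorem Fol.follow (h : Fol q r M N D R G D' R' G' f f' S U V) (hne : U.flatMap f' ≠ [])
    (hc : Crs r M N D R f f' S U V) (n : ℕ) : ∀ l : ℤ, 0 ≤ l → l ≤ n → l ≤ U.length →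
      ¬ Deep M f D R U l → ∀ l', Al (cut N f' U) (cut N f' V) l l' → Ex r M f S U V l l' := by
  have h00 : ¬ Deep M f D R U 0 := by
    intro hd
    rw [h.hdU] at hd
    have hR' := h.hR'
    have hD' := h.hD'
    exact hne (not_deep_zero (by omega) hd)
  induction n with
  | zero =>
    intro l h0 h1 _ _ l' a
    obtain rfl : l = 0 := by push_cast at h1; omega
    exact h.ex_zero hne a
  | succ n ih =>
    intro l h0 h1 h2 hn l' a
    rcases h0.eq_or_lt with h3 | h3
    · rw [← h3] at a ⊢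
      exact h.ex_zero hne a
    · obtain ⟨k, k1, k2, k3, k4⟩ := exists_prev (p := fun l => ¬ Deep M f D R U l) h00 h3
      obtain ⟨k', ak⟩ := h.al k1 (by omega)
      refine hc k l k' l' k1 k2 h2 k3 hn (fun m h5 h6 => not_not.1 (k4 m h5 h6)) ak a ?_
      exact ih k k1 (by push_cast at h1; omega) (by omega) k3 k' ak

theorem Fol.agree (h : Fol q r M N D R G D' R' G' f f' S U V) (hne : U.flatMap f' ≠ [])
    (hc : Crs r M N D R f f' S U V) (n : ℕ) : ∀ l : ℤ, 0 ≤ l → l ≤ n → l ≤ U.length →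
      ¬ Deep M f D R U l → ∀ K, K < cut M f U l → im f U K = im f V K := by
  have h00 : ¬ Deep M f D R U 0 := by
    intro hd
    rw [h.hdU] at hd
    have hR' := h.hR'
    have hD' := h.hD'
    exact hne (not_deep_zero (by omega) hd)
  have base : ∀ K, K < cut M f U 0 → im f U K = im f V K := by
    intro K hK
    rw [cut_zero] at hK
    rw [im_neg f U hK, im_neg f V hK]
  induction n with
  | zero =>
    intro l h0 h1 _ _
    obtain rfl : l = 0 := by push_cast at h1; omega
    exact base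
  | succ n ih =>
    intro l h0 h1 h2 hn
    rcases h0.eq_or_lt with h3 | h3
    · rw [← h3]
      exact base
    · obtain ⟨k, k1, k2, k3, k4⟩ := exists_prev (p := fun l => ¬ Deep M f D R U l) h00 h3
      obtain ⟨k', ak⟩ := h.al k1 (by omega)
      obtain ⟨l', al⟩ := h.al h0 h2
      have x1 := h.follow hne hc (n + 1) k k1 (by push_cast at h1 ⊢; omega) (by omega) k3 k' ak
      have x2 := h.follow hne hc (n + 1) l h0 h1 h2 hn l' al
      obtain ⟨e, he, m, m', sU, sV, hab, hxx⟩ := id x1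
      exact crossC h.gU h.gV h.gU' h.gV' h.e' h.hdU h.hdV h.hD h.hR h.hD' h.hR' h.hq h.hB'.1 h.hr k2
        (fun m h5 h6 => not_not.1 (k4 m h5 h6)) ak al x1.abs x2.abs (h.hS e he) sU sV hxx
        (ih k k1 (by push_cast at h1; omega) (by omega) k3)

theorem Fol.solve (h : Fol q r M N D R G D' R' G' f f' S U V)
    (hc : Crs r M N D R f f' S U V) : U.flatMap f = V.flatMap f := by
  have hR' := h.hR'
  have hD' := h.hD'
  have hN := h.hN
  have hDR := h.DR
  by_cases hne : U.flatMap f' = []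
  · have hB := h.hB
    have hB' := h.hB'.2.2
    have hD'1 : Deep N f' D' R' U 0 → U.flatMap f = [] := by
      intro hd
      rw [← h.hdU] at hd
      exact not_deep_zero hDR hd
    have hD'2 : Deep N f' D' R' V 0 → V.flatMap f = [] := by
      intro hd
      rw [← h.hdV] at hd
      exact not_deep_zero hDR hd
    -- D' may be zero only if nothing is deep
    have hDD : 1 ≤ D' := by
      -- far to the left everything is deep for f
      have hM := h.hM
      have h1 : Deep M f D R U (-(R + 1)) := by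
        refine ⟨1, by omega, by omega, fun K k1 k2 k3 k4 => ?_⟩
        have e1 := cut_neg (L := M) f U (l := -(R + 1)) (by omega)
        have e2 : (M : ℤ) * -(R + 1) ≤ -(R + 1) := by nlinarith
        rw [im_neg f U (by omega), im_neg f U (by omega)]
      rw [h.hdU] at h1
      obtain ⟨p, hp, hpD, -⟩ := h1
      omega
    rw [hD'1 (deep_of_nil hDD hne 0), hD'2 (deep_of_nil hDD (by rw [← h.e']; exact hne) 0)]
  · have hnE : ¬ Deep M f D R U U.length := by
      intro hd
      rw [h.hdU] at hd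
      exact hne (not_deep_end (by omega) hd)
    obtain ⟨l', al⟩ := h.al (l := U.length) (by omega) le_rfl
    have hl' : l' = V.length := by
      obtain ⟨b1, b2⟩ := al
      have e1 : cut N f' U U.length = cut N f' V V.length := by
        rw [cut_ge f' U le_rfl, cut_ge f' V le_rfl, h.e']
        ring
      rw [e1] at b1 b2
      have h1 := h.gV'.lt_of b2
      have h2 : l' < V.length + 1 := by
        apply h.gV'.lt_of
        have e2 : cut N f' V ((V.length : ℤ) + 1) = cut N f' V V.length + N := by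
          rw [cut_ge f' V (by omega), cut_ge f' V le_rfl]
          ring
        omega
      omega
    rw [hl'] at al
    have x := h.follow hne hc U.length U.length (by omega) (by omega) le_rfl hnE _ al
    have hlen := h.end_eq hne x
    have ag := h.agree hne hc U.length U.length (by omega) (by omega) le_rfl hnE
    apply eq_of_im
    intro K
    rcases lt_or_ge K (cut M f U U.length) with hK | hK
    · exact ag K hK
    · rw [cut_ge f U le_rfl] at hK
      have z : (M : ℤ) * ((U.length : ℤ) - U.length) = 0 := by ring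
      rw [z] at hK
      rw [im_ge f U (by omega), im_ge f V (by omega)]

/-- if the followed equation is solved, then the crossings are exact -/
theorem Fol.crs_of_eq (h : Fol q r M N D R G D' R' G' f f' S U V) (e : U.flatMap f = V.flatMap f) :
    Crs r M N D R f f' S U V := by
  intro l₁ l₂ l₁' l₂' h0 h12 h2 hn₁ hn₂ hdp a₁ a₂ hx
  obtain ⟨b1, b2, b3⟩ := h.hB'
  have hB := h.hB
  have hR := h.hR
  have hD := h.hD
  have hG := h.hG
  have hq3 : ((q : ℤ) + 3) * M = q * M + 3 * M := by ring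
  have hqM : 0 ≤ (q : ℤ) * M := by positivity
  have hA := crossA h.gU h.gV h.gU' h.gV' e h.e' h.hdU h.hdV hD (by omega) h.hD' h.hR' h.hq le_rfl b2 h12
    hn₂ hdp a₁ a₂ hx.abs
  obtain ⟨e₂, he, m, m', sU, sV, hab⟩ := h.hF l₂ l₂' (al_abs h.gV' a₂)
  refine ⟨e₂, he, m, m', sU, sV, hab, ?_⟩
  exact rigid e (h.hS e₂ he) sU sV h.gU h.gV (by omega) hB hA (by omega) hn₂

end

end Pool.H20E
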