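import Pool.Agent.H.h20E.Basic

/-!
Periodic and rigid positions of words.
-/

set_option autoImplicit false

namespace Pool.H20E

open Pool.H20D (im lt im1 Same Per lt_neg lt_ge lt_mid lt_none_iff)

variable {Γ A : Type}

/-- geometry of the cuts: no letter is longer than `M`, `q` letters are at least `M` long and `r` letters are at
least `G` long. -/
structure Geo (q r : ℕ) (M G : ℤ) (P : ℤ → ℤ) : Prop where
  mono : ∀ l, P l ≤ P (l + 1)
  step : ∀ l, P (l + 1) ≤ P l + M
  win : ∀ l, P l + M ≤ P (l + q)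
  wide : ∀ l, P l + G ≤ P (l + r)

variable {q r : ℕ} {M G : ℤ} {P : ℤ → ℤ}

theorem Geo.le (h : Geo q r M G P) {a b : ℤ} (hab : a ≤ b) : P a ≤ P b := by
  obtain ⟨n, hn⟩ := Int.eq_ofNat_of_zero_le (show 0 ≤ b - a by omega)
  obtain rfl : b = a + n := by omega
  clear hab hn
  induction n with
  | zero => simp
  | succ n ih =>
    refine ih.trans ?_
    have := h.mono (a + n)
    push_cast
    rwa [← add_assoc]

theorem Geo.lt_of (h : Geo q r M G P) {a b : ℤ} (hab : P a < P b) : a < b := by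
  by_contra hc
  have := h.le (not_lt.1 hc)
  omega

theorem Geo.step_n (h : Geo q r M G P) (l : ℤ) (n : ℕ) : P (l + n) ≤ P l + n * M := by
  induction n with
  | zero => simp
  | succ n ih =>
    have := h.step (l + n)
    push_cast
    rw [← add_assoc]
    linarith

theorem Geo.step_int (h : Geo q r M G P) {a b : ℤ} (hab : a ≤ b) : P b ≤ P a + (b - a) * M := by
  obtain ⟨n, hn⟩ := Int.eq_ofNat_of_zero_le (show 0 ≤ b - a by omega)
  obtain rfl : b = a + n := by omega
  have := h.step_n a n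
  have e : a + (n : ℤ) - a = n := by ring
  rwa [e]

theorem Geo.win_n (h : Geo q r M G P) (l : ℤ) (n : ℕ) : P l + n * M ≤ P (l + n * q) := by
  induction n with
  | zero => simp
  | succ n ih =>
    have := h.win (l + n * q)
    push_cast
    have e : l + ((n : ℤ) + 1) * q = l + n * q + q := by ring
    rw [e]
    linarith

theorem Geo.win_back (h : Geo q r M G P) (l : ℤ) : P (l - q) + M ≤ P l := by
  have := h.win (l - q)
  rwa [sub_add_cancel] at this

theorem Geo.wide_back (h : Geo q r M G P) (l : ℤ) : P (l - r) + G ≤ P l := by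
  have := h.wide (l - r)
  rwa [sub_add_cancel] at this

/-- many letters are long -/
theorem Geo.win_int (h : Geo q r M G P) {a b : ℤ} (n : ℕ) (hab : a + n * q ≤ b) : P a + n * M ≤ P b :=
  (h.win_n a n).trans (h.le hab)

variable {L : ℕ}

/-- a cut around which the image has a period at most `D` -/
def Deep (L : ℕ) (f : Γ → List A) (D R : ℤ) (x : List Γ) (l : ℤ) : Prop :=
  ∃ p, 0 < p ∧ p ≤ D ∧ Per (im f x) (cut L f x l - R) (cut L f x l + R) p

theorem Deep.of_per {f : Γ → List A} {D R : ℤ} {x : List Γ} {l : ℤ} {p lo hi : ℤ} (hp : 0 < p) (hD : p ≤ D)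
    (h : Per (im f x) lo hi p) (h1 : lo ≤ cut L f x l - R) (h2 : cut L f x l + R ≤ hi) :
    Deep L f D R x l := ⟨p, hp, hD, per_mono h h1 h2⟩

/-- a nonzero period makes a cut deep -/
theorem Deep.of_ne {f : Γ → List A} {D R : ℤ} {x : List Γ} {l : ℤ} {d : ℤ} (hd : d ≠ 0) (hD : |d| ≤ D)
    (h : Per (im f x) (cut L f x l - R) (cut L f x l + R) d) : Deep L f D R x l := by
  rcases lt_or_gt_of_ne hd with h1 | h1
  · exact ⟨-d, by omega, by rw [abs_of_neg h1] at hD; exact hD, h.neg⟩
  · exact ⟨d, h1, by rw [abs_of_pos h1] at hD; exact hD, h⟩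

theorem Deep.transfer {f : Γ → List A} {D R : ℤ} {x y : List Γ} {a b : ℤ}
    (hs : Same x a y b (-r) r) (gy : Geo q r M G (cut L f y))
    (hG : R ≤ G) (h : Deep L f D R x a) : Deep L f D R y b := by
  obtain ⟨p, hp, hpD, hper⟩ := h
  refine ⟨p, hp, hpD, ?_⟩
  intro K k1 k2 k3 k4
  have w1 := gy.wide b
  have w2 := gy.wide_back b
  have r1 : b + -(r : ℤ) = b - r := by ring
  have f1 := same_im (L := L) hs.symm f (by omega) (by omega) (K := K) (by rw [r1]; omega) (by omega)
  have f2 := same_im (L := L) hs.symm f (by omega) (by omega) (K := K + p) (by rw [r1]; omega) (by omega)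
  rw [f1, f2, hper (K - cut L f y b + cut L f x a) (by omega) (by omega) (by omega) (by omega)]
  congr 1
  ring

/-- two occurrences of the same pair of windows in solved equations -/
theorem per_rigid {f : Γ → List A} {R B : ℤ} {U₁ V₁ U₂ V₂ : List Γ} {a a' b b' : ℤ}
    (e₁ : U₁.flatMap f = V₁.flatMap f) (e₂ : U₂.flatMap f = V₂.flatMap f)
    (hU : Same U₁ a U₂ b (-r) r) (hV : Same V₁ a' V₂ b' (-r) r)
    (gU : Geo q r M G (cut L f U₁)) (gV : Geo q r M G (cut L f V₁)) (hG : R + B ≤ G)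
    (h₁ : |cut L f U₁ a - cut L f V₁ a'| ≤ B) :
    Per (im f U₁) (cut L f U₁ a - R) (cut L f U₁ a + R)
      ((cut L f U₁ a - cut L f V₁ a') - (cut L f U₂ b - cut L f V₂ b')) := by
  intro K k1 k2 k3 k4
  have h₁' := abs_le.1 h₁
  have w1 := gU.wide a
  have w2 := gU.wide_back a
  have w3 := gV.wide a'
  have w4 := gV.wide_back a'
  have r1 : a + -(r : ℤ) = a - r := by ring
  have r2 : a' + -(r : ℤ) = a' - r := by ring
  have f1 := same_im (L := L) hV f (by omega) (by omega) (K := K) (by rw [r2]; omega) (by omega)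
  have f2 := same_im (L := L) hU f (by omega) (by omega)
    (K := K + ((cut L f U₁ a - cut L f V₁ a') - (cut L f U₂ b - cut L f V₂ b'))) (by rw [r1]; omega) (by omega)
  rw [im_of_eq e₁, f1, f2, ← im_of_eq e₂]
  congr 1
  ring

theorem rigid {f : Γ → List A} {D R B : ℤ} {U₁ V₁ U₂ V₂ : List Γ} {a a' b b' : ℤ}
    (e₁ : U₁.flatMap f = V₁.flatMap f) (e₂ : U₂.flatMap f = V₂.flatMap f)
    (hU : Same U₁ a U₂ b (-r) r) (hV : Same V₁ a' V₂ b' (-r) r)
    (gU : Geo q r M G (cut L f U₁)) (gV : Geo q r M G (cut L f V₁)) (hG : R + B ≤ G) (hD : 2 * B ≤ D)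
    (h₁ : |cut L f U₁ a - cut L f V₁ a'| ≤ B) (h₂ : |cut L f U₂ b - cut L f V₂ b'| ≤ B)
    (hn : ¬ Deep L f D R U₁ a) :
    cut L f U₁ a - cut L f V₁ a' = cut L f U₂ b - cut L f V₂ b' := by
  by_contra hne
  apply hn
  refine Deep.of_ne (sub_ne_zero.2 hne) ?_ (per_rigid e₁ e₂ hU hV gU gV hG h₁)
  rw [abs_le] at h₁ h₂ ⊢
  constructor <;> omega

/-- a stretch of deep cuts is periodic -/
theorem merge {f : Γ → List A} {D R : ℤ} {x : List Γ} (g : Geo q r M G (cut L f x))
    (hR : M + 2 * D ≤ 2 * R) (hRD : 0 ≤ R) (a : ℤ) (n : ℕ)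
    (h : ∀ l, a ≤ l → l ≤ a + n → Deep L f D R x l) :
    ∃ p, 0 < p ∧ p ≤ D ∧ Per (im f x) (cut L f x a - R) (cut L f x (a + n) + R) p := by
  induction n with
  | zero =>
    have := h a le_rfl (by simp)
    simpa [Deep] using this
  | succ n ih =>
    obtain ⟨p, hp, hpD, hper⟩ := ih (fun l h1 h2 => h l h1 (by push_cast; omega))
    obtain ⟨p', hp', hpD', hper'⟩ := h (a + ((n + 1 : ℕ) : ℤ)) (by omega) le_rfl
    have s1 := g.step (a + n)
    have s2 := g.mono (a + n)
    have e : a + ((n + 1 : ℕ) : ℤ) = a + n + 1 := by push_cast; ring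
    rw [e] at hper' ⊢
    have s3 := g.le (show a ≤ a + (n : ℤ) by omega)
    have h3 : Per (im f x) (cut L f x (a + n + 1) - R) (cut L f x (a + n + 1) + R) p := by
      refine Per.extend hper' hp'.ne' (lo' := cut L f x (a + n + 1) - R) (hi' := cut L f x (a + n) + R)
        ?_ le_rfl (by omega) ?_
      · exact per_mono hper (by omega) le_rfl
      · rw [abs_of_pos hp, abs_of_pos hp']
        omega
    refine ⟨p, hp, hpD, per_union hper h3 (by omega) ?_⟩
    rw [abs_of_pos hp]
    omega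

theorem merge' {f : Γ → List A} {D R : ℤ} {x : List Γ} (g : Geo q r M G (cut L f x))
    (hR : M + 2 * D ≤ 2 * R) (hRD : 0 ≤ R) {a b : ℤ} (hab : a ≤ b)
    (h : ∀ l, a ≤ l → l ≤ b → Deep L f D R x l) :
    ∃ p, 0 < p ∧ p ≤ D ∧ Per (im f x) (cut L f x a - R) (cut L f x b + R) p := by
  obtain ⟨n, hn⟩ := Int.eq_ofNat_of_zero_le (show 0 ≤ b - a by omega)
  obtain rfl : b = a + n := by omega
  exact merge g hR hRD a n h

theorem not_deep_zero {f : Γ → List A} {D R : ℤ} {x : List Γ} (hDR : D ≤ R)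
    (h : Deep L f D R x 0) : x.flatMap f = [] := by
  by_contra hne
  obtain ⟨p, hp, hpD, hper⟩ := h
  rw [cut_zero] at hper
  have h1 := hper (-p) (by omega) (by omega) (by omega) (by omega)
  rw [im_neg f x (by omega)] at h1
  have h2 : (0 : ℤ) < (x.flatMap f).length := by
    have := List.length_pos_iff.2 hne
    omega
  have h3 := im_mid_ne f x (K := -p + p) (by omega) (by omega)
  exact h3 h1.symm

theorem not_deep_end {f : Γ → List A} {D R : ℤ} {x : List Γ} (hDR : D ≤ R)
    (h : Deep L f D R x x.length) : x.flatMap f = [] := by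
  by_contra hne
  obtain ⟨p, hp, hpD, hper⟩ := h
  rw [cut_ge f x le_rfl] at hper
  have h2 : (0 : ℤ) < (x.flatMap f).length := by
    have := List.length_pos_iff.2 hne
    omega
  have e : (((x.flatMap f).length : ℤ)) + L * ((x.length : ℤ) - x.length) = (x.flatMap f).length := by
    ring
  rw [e] at hper
  have h1 := hper ((x.flatMap f).length - 1) (by omega) (by omega) (by omega) (by omega)
  have h3 := im_mid_ne f x (K := (x.flatMap f).length - 1) (by omega) (by omega)
  rw [im_ge f x (K := ((x.flatMap f).length : ℤ) - 1 + p) (by omega)] at h1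
  exact h3 h1

theorem deep_of_nil {f : Γ → List A} {D R : ℤ} {x : List Γ} (hD : 1 ≤ D) (h : x.flatMap f = []) (l : ℤ) :
    Deep L f D R x l := by
  refine ⟨1, by omega, hD, fun K _ _ _ _ => ?_⟩
  have : ∀ K, im f x K = none := by
    intro K
    simp [im, h]
  rw [this, this]

end Pool.H20E
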