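import Pool.Agent.H.h20E.Chain

/-!
The chain bound for solutions whose letters are not longer than the factors of length `q`.
-/

set_option autoImplicit false

namespace Pool.H20E

open Pool.H20D (im lt im1 Same Per lt_neg lt_ge lt_mid lt_none_iff psi length_flatMap_eq)

section

variable {Γ A : Type} {t q : ℕ} {U V : ℕ → List Γ} {f : ℕ → Γ → List A} {M : ℕ → ℕ}

/-- the first equations -/
def SS (U V : ℕ → List Γ) (i : ℕ) : Set (List Γ × List Γ) := {e | ∃ j ≤ i, e = (U j, V j)}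

theorem mem_SS {i j : ℕ} (h : j ≤ i) : (U j, V j) ∈ SS U V i := ⟨j, h, rfl⟩

theorem win_geo (hq : 1 ≤ q) {i : ℕ} (hW : ∀ j ≤ i, Win q (M i) (f i) (U j) ∧ Win q (M i) (f i) (V j)) :
    ∀ e ∈ SS U V i, Geo q (rq q) (M i) (GQ q (M i)) (cut (M i) (f i) e.1) ∧
      Geo q (rq q) (M i) (GQ q (M i)) (cut (M i) (f i) e.2) := by
  rintro e ⟨j, hj, rfl⟩
  exact ⟨geo_of_win hq (hW j hj).1, geo_of_win hq (hW j hj).2⟩

/-- two pairs with the same finite data follow each other -/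
theorem mkFol (hq : 1 ≤ q) {i k j : ℕ}
    (hWi : ∀ j ≤ i, Win q (M i) (f i) (U j) ∧ Win q (M i) (f i) (V j))
    (hWk : ∀ j ≤ k, Win q (M k) (f k) (U j) ∧ Win q (M k) (f k) (V j))
    (hei : ∀ j ≤ i, (U j).flatMap (f i) = (V j).flatMap (f i))
    (hek : ∀ j ≤ k, (U j).flatMap (f k) = (V j).flatMap (f k))
    (hMi : 1 ≤ M i) (hMk : 1 ≤ M k)
    (hT : TT (rq q) (SS U V i) = TT (rq q) (SS U V k))
    (hD : DD (rq q) (M i) (f i) (DQ q (M i)) (RQ q (M i)) (SS U V i)
      = DD (rq q) (M k) (f k) (DQ q (M k)) (RQ q (M k)) (SS U V k))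
    (hF : FF (rq q) (M i) (f i) (SS U V i) = FF (rq q) (M k) (f k) (SS U V k)) (hj : j ≤ k) :
    Fol q (rq q) (M i) (M k) (DQ q (M i)) (RQ q (M i)) (GQ q (M i)) (DQ q (M k)) (RQ q (M k))
      (GQ q (M k)) (f i) (f k) (SS U V i) (U j) (V j) := by
  have gSi := win_geo (U := U) (V := V) hq hWi
  have gSk := win_geo (U := U) (V := V) hq hWk
  have hjk : (U j, V j) ∈ SS U V k := mem_SS hj
  have tU : ∀ l, wd (rq q) (U j) l ∈ TT (rq q) (SS U V k) := fun l => ⟨_, hjk, l, Or.inl rfl⟩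
  have tV : ∀ l, wd (rq q) (V j) l ∈ TT (rq q) (SS U V k) := fun l => ⟨_, hjk, l, Or.inr rfl⟩
  have gU : Geo q (rq q) (M i) (GQ q (M i)) (cut (M i) (f i) (U j)) :=
    geo_transfer gSi hq (fun l => by rw [hT]; exact tU l)
  have gV : Geo q (rq q) (M i) (GQ q (M i)) (cut (M i) (f i) (V j)) :=
    geo_transfer gSi hq (fun l => by rw [hT]; exact tV l)
  have gU' := (gSk _ hjk).1
  have gV' := (gSk _ hjk).2
  refine
    { hq := hq, hM := hMi, hN := hMk, hr := ?_, hD := ?_, hR := ?_, hG := ?_, hD' := ?_, hR' := ?_,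
      hB := ?_, hS := ?_, hSg := gSi, gU := gU, gV := gV, gU' := gU', gV' := gV', e' := hek j hj,
      hdU := ?_, hdV := ?_, hF := ?_ }
  · simp only [rq, nq, bq]
    refine Nat.mul_le_mul_right q ?_
    have h1 : (2 * q + 5) * 1 ≤ (2 * q + 5) * q := Nat.mul_le_mul_left _ hq
    rw [mul_one] at h1
    have h2 : 0 ≤ (2 * q + 5) * q * q := Nat.zero_le _
    omega
  · simp only [DQ]; positivity
  · simp only [RQ]; exact le_rfl
  · simp only [GQ]; exact le_rfl
  · simp only [DQ]; positivity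
  · simp only [RQ]
    have : (1 : ℤ) * (M k : ℤ) ≤ ((q : ℤ) + 3) * M k := mul_le_mul_of_nonneg_right (by omega) (by omega)
    omega
  · simp only [DQ, bq]
    push_cast
    exact le_rfl
  · rintro e ⟨j', hj', rfl⟩
    exact hei j' hj'
  · intro l
    rw [deep_iff gSi gU (by rw [hT]; exact tU l), deep_iff gSk gU' (tU l), hD]
  · intro l
    rw [deep_iff gSi gV (by rw [hT]; exact tV l), deep_iff gSk gV' (tV l), hD]
  · intro l l' hab
    have h1 : (wd (rq q) (U j) l, wd (rq q) (V j) l') ∈ FF (rq q) (M k) (f k) (SS U V k) :=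
      ⟨_, hjk, l, l', hab, rfl⟩
    rw [← hF] at h1
    obtain ⟨e, he, m, m', hab', heq⟩ := h1
    simp only [Prod.mk.injEq] at heq
    exact ⟨e, he, m, m', same_of_wd heq.1, same_of_wd heq.2, hab'⟩

end

theorem chain (Γ : Type) [Fintype Γ] [DecidableEq Γ] (q : ℕ) : ∃ K : ℕ, ∀ (A : Type) (t : ℕ)
    (U V : ℕ → List Γ) (f : ℕ → Γ → List A),
    (∀ i < t, ∀ j ≤ i, (U j).flatMap (f i) = (V j).flatMap (f i)) →
    (∀ i < t, (U (i + 1)).flatMap (f i) ≠ (V (i + 1)).flatMap (f i)) →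
    (∀ i < t, ∃ M : ℕ, ∀ j ≤ i, Win q M (f i) (U j) ∧ Win q M (f i) (V j)) → t ≤ K := by
  classical
  -- it is enough to consider `q + 1`
  suffices H : ∀ q : ℕ, 1 ≤ q → ∃ K : ℕ, ∀ (A : Type) (t : ℕ)
      (U V : ℕ → List Γ) (f : ℕ → Γ → List A),
      (∀ i < t, ∀ j ≤ i, (U j).flatMap (f i) = (V j).flatMap (f i)) →
      (∀ i < t, (U (i + 1)).flatMap (f i) ≠ (V (i + 1)).flatMap (f i)) →
      (∀ i < t, ∃ M : ℕ, ∀ j ≤ i, Win q M (f i) (U j) ∧ Win q M (f i) (V j)) → t ≤ K by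
    obtain ⟨K, hK⟩ := H (q + 1) (by omega)
    refine ⟨K, fun A t U V f h1 h2 h3 => hK A t U V f h1 h2 fun i hi => ?_⟩
    obtain ⟨M, hM⟩ := h3 i hi
    exact ⟨M, fun j hj => ⟨(hM j hj).1.succ, (hM j hj).2.succ⟩⟩
  intro q hq
  let W := Fin (2 * rq q) → Option Γ
  refine ⟨Fintype.card ((Prop × Set W × Set W × Set (W × W)) × Set ((W × W) × (W × W)) ×
    Fin (Fintype.card Γ + 1)), ?_⟩
  intro A t U V f hag hne hwin
  by_contra hK
  push Not at hK
  have hwin' : ∀ i, ∃ M : ℕ, i < t → ∀ j ≤ i, Win q M (f i) (U j) ∧ Win q M (f i) (V j) := by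
    intro i
    by_cases hi : i < t
    · obtain ⟨M, hM⟩ := hwin i hi
      exact ⟨M, fun _ => hM⟩
    · exact ⟨0, fun h => absurd h hi⟩
  choose M hM using hwin'
  -- the finite data
  let cls : ℕ → Prop × Set W × Set W × Set (W × W) := fun i =>
    (M i = 0, TT (rq q) (SS U V i), DD (rq q) (M i) (f i) (DQ q (M i)) (RQ q (M i)) (SS U V i),
      FF (rq q) (M i) (f i) (SS U V i))
  let CR : ℕ → Set ((Γ → ℚ) × ((W × W) × (W × W))) := fun i =>
    {c | ∃ k, k < t ∧ cls k = cls i ∧ ∃ j, j ≤ i ∧ j ≤ k ∧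
      c ∈ cross (rq q) (M k) (f k) (DQ q (M k)) (RQ q (M k)) (U j) (V j)}
  let ZZ : ℕ → Set ((W × W) × (W × W)) := fun i => {τ | ∃ v, (v, τ) ∈ CR i}
  let DS : ℕ → Submodule ℚ (Γ → ℚ) := fun i =>
    Submodule.span ℚ {w | ∃ τ v v', (v, τ) ∈ CR i ∧ (v', τ) ∈ CR i ∧ w = v - v'}
  have hfr : ∀ D : Submodule ℚ (Γ → ℚ), Module.finrank ℚ D < Fintype.card Γ + 1 := by
    intro D
    have := Submodule.finrank_le D
    rw [Module.finrank_fintype_fun_eq_card] at this
    omega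
  let F : Fin t → (Prop × Set W × Set W × Set (W × W)) × Set ((W × W) × (W × W)) ×
      Fin (Fintype.card Γ + 1) := fun i => (cls i, ZZ i, ⟨Module.finrank ℚ (DS i), hfr _⟩)
  obtain ⟨i, i', hii, hF⟩ := Fintype.exists_ne_map_eq_of_card_lt F (by simpa using hK)
  wlog hlt : i < i' generalizing i i'
  · exact this i' i (Ne.symm hii) hF.symm (lt_of_le_of_ne (not_lt.1 hlt) (Ne.symm hii))
  have hlt' : (i : ℕ) + 1 ≤ (i' : ℕ) := hlt
  simp only [F, Prod.mk.injEq, Fin.mk.injEq] at hF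
  obtain ⟨hF1, hF2, hF3⟩ := hF
  -- the crossings
  have hCR : CR i ⊆ CR i' := by
    rintro c ⟨k, hk, hc, j, h1, h2, h3⟩
    exact ⟨k, hk, hc.trans hF1, j, by omega, h2, h3⟩
  have hDS : DS i = DS i' := by
    apply Submodule.eq_of_le_of_finrank_eq _ hF3
    apply Submodule.span_mono
    rintro w ⟨τ, v, v', h1, h2, h3⟩
    exact ⟨τ, v, v', hCR h1, hCR h2, h3⟩
  have hclsP : ∀ {a b : ℕ}, cls a = cls b → (M a = 0 ↔ M b = 0) ∧
      TT (rq q) (SS U V a) = TT (rq q) (SS U V b) ∧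
      DD (rq q) (M a) (f a) (DQ q (M a)) (RQ q (M a)) (SS U V a)
        = DD (rq q) (M b) (f b) (DQ q (M b)) (RQ q (M b)) (SS U V b) ∧
      FF (rq q) (M a) (f a) (SS U V a) = FF (rq q) (M b) (f b) (SS U V b) := by
    intro a b h
    simp only [cls, Prod.mk.injEq, eq_iff_iff] at h
    exact h
  obtain ⟨c1, c2, c3, c4⟩ := hclsP hF1
  apply hne i i.2
  by_cases hM0 : M i = 0
  · -- all letters have the empty image
    have key : ∀ x : List Γ, (∀ l, wd (rq q) x l ∈ TT (rq q) (SS U V i)) → x.flatMap (f i) = [] := by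
      intro x hx
      rw [List.flatMap_eq_nil_iff]
      intro a ha
      obtain ⟨n, hn, hna⟩ := List.mem_iff_getElem.1 ha
      obtain ⟨e, ⟨j, hj, rfl⟩, u, hu, m, hm⟩ := mem_TT (hx n)
      have hr : 0 < rq q := by
        simp only [rq, nq]
        exact Nat.mul_pos (by omega) hq
      have h1 := same_of_wd hm 0 (by omega) (by omega)
      rw [add_zero, add_zero, lt_mid x n hn, hna] at h1
      have h2 : a ∈ u := by
        have h3 := h1.symm
        simp only [lt] at h3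
        split_ifs at h3
        exact List.mem_of_getElem? h3
      have hw := hM i i.2 j hj
      have h4 : (f i a).length ≤ M i := by
        rcases hu with rfl | rfl
        · exact hw.1.1 a h2
        · exact hw.2.1 a h2
      rw [hM0] at h4
      exact List.length_eq_zero_iff.1 (by omega)
    have hz : (U (i + 1), V (i + 1)) ∈ SS U V i' := mem_SS hlt'
    rw [key (U (i + 1)) (fun l => by rw [c2]; exact ⟨_, hz, l, Or.inl rfl⟩),
      key (V (i + 1)) (fun l => by rw [c2]; exact ⟨_, hz, l, Or.inr rfl⟩)]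
  · have hMi : 1 ≤ M i := by omega
    -- following
    have fol : ∀ {k j : ℕ}, k < t → cls k = cls i → j ≤ k →
        Fol q (rq q) (M i) (M k) (DQ q (M i)) (RQ q (M i)) (GQ q (M i)) (DQ q (M k)) (RQ q (M k))
          (GQ q (M k)) (f i) (f k) (SS U V i) (U j) (V j) := by
      intro k j hk hc hj
      obtain ⟨d1, d2, d3, d4⟩ := hclsP hc
      exact mkFol hq (hM i i.2) (hM k hk) (hag i i.2) (hag k hk) hMi (by
        have : ¬ M k = 0 := fun h => hM0 (d1.1 h)
        omega) d2.symm d3.symm d4.symm hj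
    have DR : DQ q (M i) ≤ RQ q (M i) := by
      simp only [RQ]
      have : 0 ≤ DQ q (M i) := by simp only [DQ]; positivity
      have : 0 ≤ ((q : ℤ) + 3) * (M i : ℤ) := by positivity
      omega
    -- a crossing of an old equation is exact at both ends
    have old : ∀ {v : Γ → ℚ} {τ : (W × W) × (W × W)}, (v, τ) ∈ CR i → ∃ j, j ≤ (i : ℕ) ∧
        ∃ m₁ m₂ m₁' m₂' : ℤ, τ = ((wd (rq q) (U j) m₁, wd (rq q) (V j) m₁'),
          (wd (rq q) (U j) m₂, wd (rq q) (V j) m₂')) ∧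
        |cut (M i) (f i) (U j) m₁ - cut (M i) (f i) (V j) m₁'| ≤ M i ∧
        |cut (M i) (f i) (U j) m₂ - cut (M i) (f i) (V j) m₂'| ≤ M i ∧
        ¬ Deep (M i) (f i) (DQ q (M i)) (RQ q (M i)) (U j) m₁ ∧
        ¬ Deep (M i) (f i) (DQ q (M i)) (RQ q (M i)) (U j) m₂ ∧
        lam (f i) v = (((cut (M i) (f i) (U j) m₂ - cut (M i) (f i) (V j) m₂') -
          (cut (M i) (f i) (U j) m₁ - cut (M i) (f i) (V j) m₁') : ℤ) : ℚ) := by
      rintro v τ ⟨k, hk, hc, j, hji, hjk, l₁, l₂, l₁', l₂', h0, h12, h2, n1, n2, hdp, a1, a2, heq⟩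
      simp only [Prod.mk.injEq] at heq
      obtain ⟨rfl, rfl⟩ := heq
      have F := fol hk hc hjk
      have n1' : ¬ Deep (M i) (f i) (DQ q (M i)) (RQ q (M i)) (U j) l₁ := fun h => n1 ((F.hdU l₁).1 h)
      have n2' : ¬ Deep (M i) (f i) (DQ q (M i)) (RQ q (M i)) (U j) l₂ := fun h => n2 ((F.hdU l₂).1 h)
      have hne' : (U j).flatMap (f k) ≠ [] := by
        intro h
        apply n1
        refine deep_of_nil ?_ h l₁
        have hN := F.hN
        simp only [DQ, bq]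
        have : (1 : ℤ) ≤ ((1 + (2 * q + 5) * q + (2 * q + 5) * q * q : ℕ) : ℤ) * (M k : ℤ) := by
          have h1 : 1 ≤ (1 + (2 * q + 5) * q + (2 * q + 5) * q * q) * M k :=
            Nat.mul_pos (by omega) (by omega)
          exact_mod_cast h1
        omega
      have cr := F.crs_of_eq (hag i i.2 j hji)
      have x1 := F.follow hne' cr (U j).length l₁ h0 (by omega) (by omega) n1' l₁' a1
      have x2 := F.follow hne' cr (U j).length l₂ (by omega) h2 h2 n2' l₂' a2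
      exact ⟨j, hji, l₁, l₂, l₁', l₂', rfl, x1.abs, x2.abs, n1', n2',
        lam_cross F.hN F.gU' F.gV' F.e' h0 h12 h2 a1 a2⟩
    -- two occurrences of the same types
    have rig : ∀ {j k : ℕ} {a b a' b' : ℤ}, j ≤ (i : ℕ) → k ≤ (i : ℕ) →
        Same (U j) a (U k) b (-(rq q : ℕ)) (rq q : ℕ) → Same (V j) a' (V k) b' (-(rq q : ℕ)) (rq q : ℕ) →
        |cut (M i) (f i) (U j) a - cut (M i) (f i) (V j) a'| ≤ M i →
        |cut (M i) (f i) (U k) b - cut (M i) (f i) (V k) b'| ≤ M i →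
        ¬ Deep (M i) (f i) (DQ q (M i)) (RQ q (M i)) (U j) a →
        cut (M i) (f i) (U j) a - cut (M i) (f i) (V j) a'
          = cut (M i) (f i) (U k) b - cut (M i) (f i) (V k) b' := by
      intro j k a b a' b' hj hk hU hV h1 h2 hn
      have gS := win_geo (U := U) (V := V) hq (hM i i.2)
      have hb1 : (M i : ℤ) ≤ bq q * M i := by
        simp only [bq]
        have h1 : 1 * M i ≤ (1 + (2 * q + 5) * q + (2 * q + 5) * q * q) * M i :=
          Nat.mul_le_mul_right _ (by omega)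
        rw [one_mul] at h1
        exact_mod_cast h1
      have hDD : DQ q (M i) = 2 * (bq q * M i) := rfl
      refine rigid (B := M i) (hag i i.2 j hj) (hag i i.2 k hk) hU hV (gS _ (mem_SS hj)).1
        (gS _ (mem_SS hj)).2 ?_ ?_ h1 h2 hn
      · simp only [GQ]
        omega
      · omega
    -- the functional vanishes on the span
    have van : ∀ w ∈ DS i, lam (f i) w = 0 := by
      have : DS i ≤ LinearMap.ker (lam (f i)) := by
        rw [Submodule.span_le]
        rintro w ⟨τ, v, v', h1, h2, rfl⟩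
        obtain ⟨j, hj, m₁, m₂, m₁', m₂', t1, p1, p2, n1, n2, l1⟩ := old h1
        obtain ⟨k, hk, b₁, b₂, b₁', b₂', t2, q1, q2, -, -, l2⟩ := old h2
        rw [t1] at t2
        simp only [Prod.mk.injEq] at t2
        obtain ⟨⟨s1, s2⟩, s3, s4⟩ := t2
        have r1 := rig hj hk (same_of_wd s1) (same_of_wd s2) p1 q1 n1
        have r2 := rig hj hk (same_of_wd s3) (same_of_wd s4) p2 q2 n2
        simp only [SetLike.mem_coe, LinearMap.mem_ker, map_sub]
        rw [l1, l2, r1, r2]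
        ring
      intro w hw
      exact this hw
    -- the new equation
    have F := fol i'.2 hF1.symm hlt'
    refine F.solve ?_
    intro l₁ l₂ l₁' l₂' h0 h12 h2 n1 n2 hdp a1 a2 hx
    -- the crossing is one of the later set
    have hin : (psi (U (i + 1)) l₂ - psi (U (i + 1)) l₁ - (psi (V (i + 1)) l₂' - psi (V (i + 1)) l₁'),
        (wd (rq q) (U (i + 1)) l₁, wd (rq q) (V (i + 1)) l₁'),
        (wd (rq q) (U (i + 1)) l₂, wd (rq q) (V (i + 1)) l₂')) ∈ CR i' :=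
      ⟨i', i'.2, rfl, i + 1, hlt', hlt', l₁, l₂, l₁', l₂', h0, h12, h2, fun h => n1 ((F.hdU l₁).2 h),
        fun h => n2 ((F.hdU l₂).2 h), fun l h3 h4 => (F.hdU l).1 (hdp l h3 h4), a1, a2, rfl⟩
    have hz : ((wd (rq q) (U (i + 1)) l₁, wd (rq q) (V (i + 1)) l₁'),
        (wd (rq q) (U (i + 1)) l₂, wd (rq q) (V (i + 1)) l₂')) ∈ ZZ i := by
      rw [hF2]
      exact ⟨_, hin⟩
    obtain ⟨v', hv'⟩ := hz
    have hsub := van _ (by
      rw [hDS]
      exact Submodule.subset_span ⟨_, _, v', hin, hCR hv', rfl⟩)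
    rw [map_sub, lam_cross (M := M i) F.hN F.gU' F.gV' F.e' h0 h12 h2 a1 a2] at hsub
    obtain ⟨k, hk, b₁, b₂, b₁', b₂', t2, q1, q2, nn1, nn2, l2⟩ := old hv'
    simp only [Prod.mk.injEq] at t2
    obtain ⟨⟨s1, s2⟩, s3, s4⟩ := t2
    rw [l2] at hsub
    -- exactness at the start
    obtain ⟨e, ⟨j, hj, rfl⟩, m, m', sU, sV, hab, hxx⟩ := id hx
    have r1 := rig hk hj ((same_of_wd s1).symm.trans' sU) ((same_of_wd s2).symm.trans' sV) q1 hab nn1
    refine ⟨(U k, V k), mem_SS hk, b₂, b₂', same_of_wd s3, same_of_wd s4, q2, ?_⟩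
    have h3 : (((cut (M i) (f i) (U (i + 1)) l₂ - cut (M i) (f i) (V (i + 1)) l₂') -
        (cut (M i) (f i) (U (i + 1)) l₁ - cut (M i) (f i) (V (i + 1)) l₁') : ℤ) : ℚ)
        = (((cut (M i) (f i) (U k) b₂ - cut (M i) (f i) (V k) b₂') -
          (cut (M i) (f i) (U k) b₁ - cut (M i) (f i) (V k) b₁') : ℤ) : ℚ) := by
      linarith
    have h4 := Int.cast_injective h3
    simp only at hxx
    show _ = cut (M i) (f i) (U k) b₂ - cut (M i) (f i) (V k) b₂'
    omega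

end Pool.H20E
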