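import Pool.Agent.H.h20E.Main

/-!
Words with bounded gaps between the occurrences of every letter.
-/

set_option autoImplicit false

namespace Pool.H20E

variable {Γ A : Type}

/-- every factor of length `q` of `x` contains every letter of `x` -/
def Gap (q : ℕ) (x : List Γ) : Prop := ∀ u, u <:+: x → u.length = q → ∀ a ∈ x, a ∈ u

theorem length_le_of_mem {g : Γ → List A} {a : Γ} {u : List Γ} (h : a ∈ u) :
    (g a).length ≤ (u.flatMap g).length := by
  obtain ⟨s, t, rfl⟩ := List.append_of_mem h
  simp only [List.flatMap_append, List.flatMap_cons, List.length_append]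
  omega

theorem blocks {q : ℕ} {g : Γ → List A} {a : Γ} (n : ℕ) : ∀ u : List Γ,
    (∀ v, v <:+: u → v.length = q → a ∈ v) → n * q ≤ u.length → n * (g a).length ≤ (u.flatMap g).length := by
  induction n with
  | zero => intro u _ _; simp
  | succ n ih =>
    intro u hu hn
    have e : (n + 1) * q = n * q + q := by ring
    have e2 : (n + 1) * (g a).length = n * (g a).length + (g a).length := by ring
    rw [e] at hn
    rw [e2]
    have h1 := ih (u.drop q) (fun v hv => hu v (hv.trans (List.drop_suffix q u).isInfix)) (by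
      rw [List.length_drop]; omega)
    have h2 : a ∈ u.take q := hu _ (List.take_prefix q u).isInfix (by rw [List.length_take]; omega)
    have h3 := length_le_of_mem (g := g) h2
    have h4 : (u.flatMap g).length = ((u.take q).flatMap g).length + ((u.drop q).flatMap g).length := by
      rw [← List.length_append, ← List.flatMap_append, List.take_append_drop]
    omega

theorem length_flatMap_le {g : Γ → List A} {G : ℕ} (u : List Γ) (h : ∀ a ∈ u, (g a).length ≤ G) :
    (u.flatMap g).length ≤ u.length * G := by
  induction u with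
  | nil => simp
  | cons b u ih =>
    have h1 := ih (fun a ha => h a (List.mem_cons_of_mem _ ha))
    have h2 := h b List.mem_cons_self
    rw [List.flatMap_cons, List.length_append, List.length_cons]
    have e : (u.length + 1) * G = u.length * G + G := by ring
    omega

/-- the images of the letters under two morphisms which agree on a long word with bounded gaps are comparable -/
theorem comparable {q : ℕ} (hq : 1 ≤ q) {g h : Γ → List A} {x : List Γ} (hx : Gap q x)
    (hl : (x.flatMap g).length = (x.flatMap h).length) (hlen : q ≤ x.length) {G : ℕ}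
    (hG : ∀ a ∈ x, (g a).length ≤ G) {b : Γ} (hb : b ∈ x) : (h b).length ≤ 2 * q * G := by
  set n := x.length / q with hn
  have h1 : 1 ≤ n := (Nat.one_le_div_iff (by omega)).2 hlen
  have h2 : n * q ≤ x.length := Nat.div_mul_le_self _ _
  have h3 : x.length < (n + 1) * q := by
    have := Nat.lt_succ_self n
    rw [hn]
    exact Nat.lt_mul_of_div_lt (Nat.lt_succ_self _) (by omega)
  have h4 := blocks (g := h) (a := b) n x (fun v hv hvl => hx v hv hvl b hb) h2
  have h5 := length_flatMap_le (g := g) x hG
  rw [hl] at h5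
  have h6 : n * (h b).length ≤ x.length * G := h4.trans h5
  have h7 : x.length * G ≤ n * (2 * q * G) := by
    have h8 : x.length ≤ n * (2 * q) := by nlinarith
    calc x.length * G ≤ n * (2 * q) * G := Nat.mul_le_mul_right _ h8
      _ = n * (2 * q * G) := by ring
  exact Nat.le_of_mul_le_mul_left (h6.trans h7) h1

theorem win_map {Δ : Type} {q M : ℕ} {f : Δ → List A} {c : Γ → Δ} {x : List Γ} (h1 : ∀ a ∈ x, (f (c a)).length ≤ M)
    (h2 : ∀ u, u <:+: x → u.length = q → M ≤ (u.flatMap (fun a => f (c a))).length) :
    Win q M f (x.map c) := by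
  constructor
  · intro b hb
    obtain ⟨a, ha, rfl⟩ := List.mem_map.1 hb
    exact h1 a ha
  · rintro y ⟨s, t, hst⟩ hy
    -- y is the image of a factor of x
    obtain ⟨x₁, x₂, e1, e2, e3⟩ := List.map_eq_append_iff.1 hst.symm
    obtain ⟨x₃, x₄, e4, e5, e6⟩ := List.map_eq_append_iff.1 e2
    have hu : x₄ <:+: x := ⟨x₃, x₂, by rw [e1, e4]⟩
    have := h2 x₄ hu (by rw [← hy, ← e6, List.length_map])
    rw [← e6, List.flatMap_map]
    exact this

/-- Chain bound for words with bounded gaps which have the same letters. -/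
theorem gap_chain (m q : ℕ) : ∃ K : ℕ, ∀ (A : Type) (t : ℕ) (z : ℕ → List (Fin m)) (s : Finset (Fin m))
    (g h : ℕ → Fin m → List A), (∀ j ≤ t, Gap q (z j)) → (∀ j ≤ t, (z j).toFinset = s) →
    (∀ i < t, ∀ j ≤ i, (z j).flatMap (g i) = (z j).flatMap (h i)) →
    (∀ i < t, (z (i + 1)).flatMap (g i) ≠ (z (i + 1)).flatMap (h i)) → t ≤ K := by
  rcases Nat.eq_zero_or_pos q with rfl | hq
  · refine ⟨0, fun A t z s g h hg _ _ hne => ?_⟩
    by_contra ht
    push Not at ht
    apply hne 0 ht
    have h1 : z (0 + 1) = [] := by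
      rw [List.eq_nil_iff_forall_not_mem]
      intro a ha
      exact absurd (hg 1 ht [] List.nil_infix rfl a ha) (by simp)
    rw [h1]
    rfl
  obtain ⟨K, hK⟩ := chain (Fin m ⊕ Fin m) (2 * q * q)
  refine ⟨K, fun A t z s g h hg hs hag hne => ?_⟩
  have e1 : ∀ (i : ℕ) (x : List (Fin m)), (x.map Sum.inl).flatMap (Sum.elim (g i) (h i)) = x.flatMap (g i) := by
    intro i x
    rw [List.flatMap_map]
    rfl
  have e2 : ∀ (i : ℕ) (x : List (Fin m)), (x.map Sum.inr).flatMap (Sum.elim (g i) (h i)) = x.flatMap (h i) := by
    intro i x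
    rw [List.flatMap_map]
    rfl
  refine hK A t (fun j => (z j).map Sum.inl) (fun j => (z j).map Sum.inr)
    (fun i => Sum.elim (g i) (h i)) ?_ ?_ ?_
  · intro i hi j hj
    simp only [e1, e2]
    exact hag i hi j hj
  · intro i hi
    simp only [e1, e2]
    exact hne i hi
  · intro i hi
    set G := s.sup (fun a => (g i a).length) with hG
    set H := s.sup (fun a => (h i a).length) with hH
    have hGle : ∀ a ∈ s, (g i a).length ≤ G := fun a ha => Finset.le_sup (f := fun a => (g i a).length) ha
    have hHle : ∀ a ∈ s, (h i a).length ≤ H := fun a ha => Finset.le_sup (f := fun a => (h i a).length) ha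
    refine ⟨max G H, fun j hj => ?_⟩
    have hmem : ∀ a, a ∈ z j ↔ a ∈ s := fun a => by rw [← hs j (by omega), List.mem_toFinset]
    have key : ∀ u, u <:+: z j → u.length = 2 * q * q →
        max G H ≤ (u.flatMap (g i)).length ∧ max G H ≤ (u.flatMap (h i)).length := by
      intro u hu hul
      have hlen : q ≤ (z j).length := by
        have h1 := hu.length_le
        have h2 : 1 * q ≤ 2 * q * q := Nat.mul_le_mul_right q (by omega)
        omega
      have hne' : s.Nonempty := by
        have : z j ≠ [] := by
          intro h0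
          rw [h0] at hlen
          simp at hlen
          omega
        obtain ⟨a, ha⟩ := List.exists_mem_of_ne_nil _ this
        exact ⟨a, (hmem a).1 ha⟩
      obtain ⟨a, ha, haG⟩ := Finset.exists_mem_eq_sup s hne' (fun a => (g i a).length)
      obtain ⟨b, hb, hbH⟩ := Finset.exists_mem_eq_sup s hne' (fun a => (h i a).length)
      have hl := congrArg List.length (hag i hi j hj)
      have c1 : H ≤ 2 * q * G := by
        rw [hH, hbH]
        exact comparable hq (hg j (by omega)) hl hlen (fun c hc => hGle c ((hmem c).1 hc)) ((hmem b).2 hb)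
      have c2 : G ≤ 2 * q * H := by
        rw [hG, haG]
        exact comparable hq (hg j (by omega)) hl.symm hlen (fun c hc => hHle c ((hmem c).1 hc)) ((hmem a).2 ha)
      have b1 := blocks (g := g i) (a := a) (q := q) (2 * q) u
        (fun v hv hvl => hg j (by omega) v (hv.trans hu) hvl a ((hmem a).2 ha)) (by rw [hul])
      have b2 := blocks (g := h i) (a := b) (q := q) (2 * q) u
        (fun v hv hvl => hg j (by omega) v (hv.trans hu) hvl b ((hmem b).2 hb)) (by rw [hul])
      have f1 : (g i a).length = G := by rw [hG, haG]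
      have f2 : (h i b).length = H := by rw [hH, hbH]
      rw [f1] at b1
      rw [f2] at b2
      have g1 : 1 * G ≤ 2 * q * G := Nat.mul_le_mul_right G (by omega)
      have g2 : 1 * H ≤ 2 * q * H := Nat.mul_le_mul_right H (by omega)
      constructor
      · exact max_le (by omega) (by omega)
      · exact max_le (by omega) (by omega)
    constructor
    · refine win_map ?_ ?_
      · intro a ha
        exact (hGle a ((hmem a).1 ha)).trans (le_max_left _ _)
      · intro u hu hul
        exact (key u hu hul).1
    · refine win_map ?_ ?_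
      · intro a ha
        exact (hHle a ((hmem a).1 ha)).trans (le_max_right _ _)
      · intro u hu hul
        exact (key u hu hul).2

/-- Chain bound for words with bounded gaps. -/
theorem gap_chain' (m q : ℕ) : ∃ K : ℕ, ∀ (A : Type) (t : ℕ) (z : ℕ → List (Fin m))
    (g h : ℕ → Fin m → List A), (∀ j ≤ t, Gap q (z j)) →
    (∀ i < t, ∀ j ≤ i, (z j).flatMap (g i) = (z j).flatMap (h i)) →
    (∀ i < t, (z (i + 1)).flatMap (g i) ≠ (z (i + 1)).flatMap (h i)) → t ≤ K := by
  obtain ⟨K, hK⟩ := gap_chain m q
  refine ⟨Fintype.card (Finset (Fin m)) * (K + 1), fun A t z g h hg hag hne => ?_⟩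
  by_contra ht
  push Not at ht
  -- many words have the same letters
  obtain ⟨s, hs⟩ := Fintype.exists_lt_card_fiber_of_mul_lt_card (fun j : Fin (t + 1) => (z j).toFinset)
    (n := K + 1) (by rw [Fintype.card_fin]; omega)
  set J := Finset.univ.filter (fun j : Fin (t + 1) => (z j).toFinset = s) with hJ
  obtain ⟨J', hJ', hcard⟩ := Finset.exists_subset_card_eq (show K + 2 ≤ J.card by omega)
  let φ : Fin (K + 2) ↪o Fin (t + 1) := J'.orderEmbOfFin hcard
  have hφ : ∀ k, φ k ∈ J := fun k => hJ' (Finset.orderEmbOfFin_mem J' hcard k)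
  have hφs : ∀ k, (z (φ k)).toFinset = s := fun k => (Finset.mem_filter.1 (hφ k)).2
  let ψ : ℕ → ℕ := fun k => if hk : k < K + 2 then (φ ⟨k, hk⟩ : ℕ) else 0
  have hψ : ∀ k (hk : k < K + 2), ψ k = (φ ⟨k, hk⟩ : ℕ) := fun k hk => by simp only [ψ, hk, dif_pos]
  have hψmono : ∀ a b, a < b → b < K + 2 → ψ a < ψ b := by
    intro a b hab hb
    rw [hψ a (by omega), hψ b hb]
    have : φ ⟨a, by omega⟩ < φ ⟨b, hb⟩ := φ.strictMono (by simpa using hab)
    exact this
  have hψle : ∀ a, a < K + 2 → ψ a ≤ t := by
    intro a ha
    rw [hψ a ha]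
    have := (φ ⟨a, ha⟩).2
    omega
  have h1 := hK A (K + 1) (fun k => z (ψ k)) s (fun k => g (ψ (k + 1) - 1)) (fun k => h (ψ (k + 1) - 1))
    (fun j hj => hg _ (hψle j (by omega))) (fun j hj => by
      show (z (ψ j)).toFinset = s
      rw [hψ j (by omega)]
      exact hφs _) ?_ ?_
  · omega
  · intro i hi j hj
    have h2 := hψmono j (i + 1) (by omega) (by omega)
    have h3 := hψle (i + 1) (by omega)
    exact hag _ (by omega) _ (by omega)
  · intro i hi
    have h2 := hψmono 0 (i + 1) (by omega) (by omega)
    have h3 := hψle (i + 1) (by omega)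
    have h4 := hne (ψ (i + 1) - 1) (by omega)
    have h5 : ψ (i + 1) - 1 + 1 = ψ (i + 1) := by omega
    rw [h5] at h4
    exact h4

end Pool.H20E
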